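import Pool.Agent.H72.EMC.ALL
import Pool.Agent.H72.EMC.CD
import Pool.Agent.H72.EMC.FC
import Pool.Agent.H72.EMC.GE
import Pool.Agent.H72.EMC.LA
import Pool.Agent.H72.EMC.NC
import Pool.Agent.H72.EMC.PC
import Pool.Agent.H72.EMC.PI
import Pool.Agent.H72.EMC.PO
import Pool.Agent.H72.EMC.PU
import Pool.Agent.H72.EMC.PX
import Pool.Agent.H72.EMC.RW
import Pool.Agent.H58.EMC.D1
import Pool.Agent.H58.EMC.D2
import Pool.Agent.H58.EMC.IH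
import Pool.Agent.H58.EMC.SM
import Pool.Agent.H60.EMC.FB
import Pool.Agent.H60.EMC.GC
import Pool.Agent.H60.EMC.H0
import Pool.Agent.H60.EMC.TF
import Pool.Agent.H60.EMC.TI
import Pool.Agent.H60.EMC.UC
import Pool.Agent.H79.EMC.DB
import Pool.Agent.H79.EMC.DG
import Pool.Agent.H79.EMC.FA
import Pool.Agent.H54.EMC.H2
import Pool.Agent.H54.EMC.LS
import Pool.Agent.H54.EMC.NU
import Pool.Agent.H49.EMC.H1
import Pool.Agent.H36.EMC.EC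
import Pool.Agent.H5.EMC.GN
import Pool.Agent.H2.EMC.UN
import Pool.Agent.H16.EMC.GI
import Pool.Agent.H16.EMC.GT

/-!
# Exact matching in cubic graphs: the theorem (helper72)
-/

set_option autoImplicit false

namespace Pool.Agent.H72.EMA

open Pool.Agent.H72.EM

theorem t_TI : T_TI := Pool.Agent.H60.EMC.pf_TI
theorem t_PI : T_PI := Pool.Agent.H72.EMC.pf_PI
theorem t_TF : T_TF := Pool.Agent.H60.EMC.pf_TF t_TI t_PI
theorem t_LA : T_LA := Pool.Agent.H72.EMC.pf_LA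
theorem t_PO : T_PO := Pool.Agent.H72.EMC.pf_PO t_LA
theorem t_PX : T_PX := Pool.Agent.H72.EMC.pf_PX
theorem t_PC : T_PC := Pool.Agent.H72.EMC.pf_PC t_PI
theorem t_PU : T_PU := Pool.Agent.H72.EMC.pf_PU
theorem t_FA : T_FA := Pool.Agent.H79.EMC.pf_FA t_TF t_PI t_PO
theorem t_FB : T_FB := Pool.Agent.H60.EMC.pf_FB t_TF t_PI t_PX
theorem t_SM : T_SM := Pool.Agent.H58.EMC.pf_SM
theorem t_HI : T_HI := Pool.Agent.H58.EMC.pf_HI t_SM
theorem t_IH : T_IH := Pool.Agent.H58.EMC.pf_IH t_TI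
theorem t_GC : T_GC := Pool.Agent.H60.EMC.pf_GC
theorem t_H0 : T_H0 := Pool.Agent.H60.EMC.pf_H0
theorem t_H1 : T_H1 := Pool.Agent.H49.EMC.pf_H1 t_GC t_TI
theorem t_H2 : T_H2 := Pool.Agent.H54.EMC.pf_H2 t_GC t_TI
theorem t_FC : T_FC := Pool.Agent.H72.EMC.pf_FC t_TI t_PI t_H0 t_H1 t_H2 t_PC t_TF
theorem t_UC : T_UC := Pool.Agent.H60.EMC.pf_UC t_TF t_PI t_PU
theorem t_NC : T_NC := Pool.Agent.H72.EMC.pf_NC t_UC t_TI
theorem t_NU : T_NU := Pool.Agent.H54.EMC.pf_NU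
theorem t_D1 : T_D1 := Pool.Agent.H58.EMC.pf_D1
theorem t_D2 : T_D2 := Pool.Agent.H58.EMC.pf_D2 t_TI
theorem t_EC : T_EC := Pool.Agent.H36.EMC.pf_EC t_D1 t_D2 t_TF
theorem t_LS : T_LS := Pool.Agent.H54.EMC.pf_LS
theorem t_CD : T_CD := Pool.Agent.H72.EMC.pf_CD
theorem t_GE : T_GE := Pool.Agent.H72.EMC.pf_GE t_EC t_LS t_CD
theorem t_DB : T_DB := Pool.Agent.H79.EMC.pf_DB
theorem t_DG : T_DG := Pool.Agent.H79.EMC.pf_DG
theorem t_RW : T_RW := Pool.Agent.H72.EMC.pf_RW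
theorem t_GI : T_GI := Pool.Agent.H16.EMC.pf_GI
theorem t_GT : T_GT := Pool.Agent.H16.EMC.pf_GT t_GI
theorem t_GN : T_GN := Pool.Agent.H5.EMC.pf_GN
theorem t_UN : T_UN := Pool.Agent.H2.EMC.pf_UN

theorem t_ALL : T_ALL := Pool.Agent.H72.EMC.pf_ALL t_GE t_NU t_FA t_FB t_HI t_IH t_TF t_FC t_NC
  t_DB t_DG t_RW t_GI t_GT t_GN t_UN

end Pool.Agent.H72.EMA
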