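import Pool.Agent.H72.EM.Targets

/-!
# Exact matching in cubic graphs: basic facts (helper72)
-/

set_option autoImplicit false

open Finset

namespace Pool.Agent.H72.EM

variable {κ m : ℕ}

theorem up_val (i : Ix κ) : (up i).val = if i.val = 2 * κ + 1 then 0 else i.val + 1 := by
  unfold up zr
  split_ifs with h1 h2 h2
  · exfalso; omega
  · rfl
  · rfl
  · exfalso
    have := i.2
    omega

theorem dn_val (i : Ix κ) : (dn i).val = if i.val = 0 then 2 * κ + 1 else i.val - 1 := by
  unfold dn lst
  split_ifs with h1 h2 h2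
  · exfalso; omega
  · rfl
  · rfl
  · exfalso; omega

@[simp] theorem zr_val : (zr : Ix κ).val = 0 := rfl
@[simp] theorem lst_val : (lst : Ix κ).val = 2 * κ + 1 := rfl

theorem tw_val (i : Ix κ) : (tw i).val = if i.val < κ + 1 then i.val + (κ + 1) else i.val - (κ + 1) := by
  unfold tw
  split_ifs with h1
  · rfl
  · rfl

@[simp] theorem up_dn (i : Ix κ) : up (dn i) = i := by
  apply Fin.ext
  have h1 := up_val (dn i)
  have h2 := dn_val i
  have := i.2
  split_ifs at h1 h2 <;> omega

@[simp] theorem dn_up (i : Ix κ) : dn (up i) = i := by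
  apply Fin.ext
  have h1 := dn_val (up i)
  have h2 := up_val i
  have := i.2
  split_ifs at h1 h2 <;> omega

@[simp] theorem tw_tw (i : Ix κ) : tw (tw i) = i := by
  apply Fin.ext
  have h1 := tw_val i
  have h2 := tw_val (tw i)
  have := i.2
  split_ifs at h1 h2 <;> omega

theorem tw_ne (i : Ix κ) : tw i ≠ i := by
  intro h
  have h1 := congrArg Fin.val h
  rw [tw_val] at h1
  have := i.2
  split_ifs at h1 <;> omega

theorem nxB_none (i : Ix κ) : nxB (i, none) = (i, some zr) := rfl
theorem nxB_some (i j : Ix κ) :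
    nxB (i, some j) = if j.val = 2 * κ + 1 then (up i, none) else (i, some (up j)) := rfl
theorem pvB_none (i : Ix κ) : pvB (i, none) = (dn i, some lst) := rfl
theorem pvB_some (i j : Ix κ) :
    pvB (i, some j) = if j.val = 0 then (i, none) else (i, some (dn j)) := rfl

@[simp] theorem pvB_nxB (b : Bk κ) : pvB (nxB b) = b := by
  obtain ⟨i, o⟩ := b
  cases o with
  | none => simp [nxB, pvB]
  | some j =>
    rw [nxB_some]
    split_ifs with h
    · rw [pvB_none, dn_up]
      have : j = lst := Fin.ext h
      rw [this]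
    · have h2 : ¬ (up j).val = 0 := by
        have h3 := up_val j
        rw [if_neg h] at h3
        omega
      rw [pvB_some, if_neg h2, dn_up]

@[simp] theorem nxB_pvB (b : Bk κ) : nxB (pvB b) = b := by
  obtain ⟨i, o⟩ := b
  cases o with
  | none => simp [nxB, pvB]
  | some j =>
    rw [pvB_some]
    split_ifs with h
    · rw [nxB_none]
      have : j = zr := Fin.ext h
      rw [this]
    · have h2 : ¬ (dn j).val = 2 * κ + 1 := by
        have := j.2
        have h3 := dn_val j
        rw [if_neg h] at h3
        omega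
      rw [nxB_some, if_neg h2, up_dn]

@[simp] theorem pv_nx (h : Hs κ) : pv (nx h) = h := by
  obtain ⟨b, s⟩ := h
  cases s with
  | none => rfl
  | some s => cases s <;> simp [nx, pv]

@[simp] theorem nx_pv (h : Hs κ) : nx (pv h) = h := by
  obtain ⟨b, s⟩ := h
  cases s with
  | none => simp [nx, pv]
  | some s => cases s <;> simp [nx, pv]

/-- a dart of a matching: the other end -/
theorem IsM.iff {V : Type} {τ : Dt V → Dt V} {χ : V → Fin 3} (hM : IsM τ χ)
    (hi : ∀ x, τ (τ x) = x) (v : V) (a : Fin 3) :
    χ v = a ↔ χ (τ (v, a)).1 = (τ (v, a)).2 := by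
  constructor
  · intro h
    subst h
    exact (hM v).symm
  · intro h
    have h1 := hM (τ (v, a)).1
    rw [h] at h1
    have h2 : ((τ (v, a)).1, (τ (v, a)).2) = τ (v, a) := rfl
    rw [h2, hi] at h1
    exact h1.symm

end Pool.Agent.H72.EM
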