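import Mathlib
import Pool.Agent.H68.NPH.Prog
import Pool.Prelude.Def_H_3587d628

/-!
# Exact matching in cubic graphs: definitions (helper72)

A cubic graph is given by an involution of its darts (pairs of a vertex and a port `0, 1, 2`).
The host graph is a Hamiltonian cycle with chords; every host vertex but the first one of each block
is replaced by a pole (four vertices and a ladder with an apex).
-/

set_option autoImplicit false

open Finset

namespace Pool.Agent.H72.EM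

/-! ### Port graphs -/

/-- darts -/
abbrev Dt (V : Type) : Type := V × Fin 3

/-- `τ` is the dart involution of a simple cubic graph -/
structure IsPG {V : Type} (τ : Dt V → Dt V) : Prop where
  inv : ∀ x, τ (τ x) = x
  ne : ∀ x, (τ x).1 ≠ x.1
  inj : ∀ v a b, (τ (v, a)).1 = (τ (v, b)).1 → a = b

/-- perfect matchings: every vertex chooses a port -/
def IsM {V : Type} (τ : Dt V → Dt V) (χ : V → Fin 3) : Prop :=
  ∀ v, (τ (v, χ v)).2 = χ (τ (v, χ v)).1

/-- the number of red darts of a matching (twice the number of red edges) -/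
def cnt {V : Type} [Fintype V] (red : Dt V → Bool) (χ : V → Fin 3) : ℕ :=
  (univ.filter fun v => red (v, χ v) = true).card

/-- proper 3-edge-colourings -/
structure IsCol {V : Type} (τ : Dt V → Dt V) (col : Dt V → Fin 3) : Prop where
  inv : ∀ x, col (τ x) = col x
  inj : ∀ v a b, col (v, a) = col (v, b) → a = b

/-- adjacency by an edge whose colour is not `d` -/
def stp {V : Type} (τ : Dt V → Dt V) (col : Dt V → Fin 3) (d : Fin 3) (v w : V) : Prop :=
  ∃ a, col (v, a) ≠ d ∧ (τ (v, a)).1 = w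

/-- the edges whose colour is not `d` form a connected graph -/
def Cn {V : Type} (τ : Dt V → Dt V) (col : Dt V → Fin 3) (d : Fin 3) : Prop :=
  ∀ v w, Relation.ReflTransGen (stp τ col d) v w

/-! ### The host -/

/-- the vertices of the given graph -/
abbrev Ix (κ : ℕ) : Type := Fin (2 * κ + 2)

/-- blocks: `(i, none)` is the link block before the gadget of `i`, `(i, some j)` belongs to the pair
`(i, j)` -/
abbrev Bk (κ : ℕ) : Type := Ix κ × Option (Ix κ)

/-- slots of a block besides the first one -/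
inductive Sl : Type
  | ax | ay | az | bv | bx | by' | bz
  deriving DecidableEq, Fintype

/-- host vertices -/
abbrev Hs (κ : ℕ) : Type := Bk κ × Option Sl

variable {κ : ℕ}

/-- first and last index -/
def zr : Ix κ := ⟨0, by omega⟩
def lst : Ix κ := ⟨2 * κ + 1, by omega⟩

/-- cyclic successor and predecessor -/
def up (i : Ix κ) : Ix κ := if h : i.val + 1 < 2 * κ + 2 then ⟨i.val + 1, h⟩ else zr
def dn (i : Ix κ) : Ix κ := if 1 ≤ i.val then ⟨i.val - 1, by omega⟩ else lst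

/-- next block, previous block -/
def nxB : Bk κ → Bk κ
  | (i, none) => (i, some zr)
  | (i, some j) => if j.val = 2 * κ + 1 then (up i, none) else (i, some (up j))
def pvB : Bk κ → Bk κ
  | (i, none) => (dn i, some lst)
  | (i, some j) => if j.val = 0 then (i, none) else (i, some (dn j))

/-- next and previous vertex on the Hamiltonian cycle -/
def nx : Hs κ → Hs κ
  | (b, none) => (b, some .ax)
  | (b, some .ax) => (b, some .ay)
  | (b, some .ay) => (b, some .az)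
  | (b, some .az) => (b, some .bv)
  | (b, some .bv) => (b, some .bx)
  | (b, some .bx) => (b, some .by')
  | (b, some .by') => (b, some .bz)
  | (b, some .bz) => (nxB b, none)
def pv : Hs κ → Hs κ
  | (b, none) => (pvB b, some .bz)
  | (b, some .ax) => (b, none)
  | (b, some .ay) => (b, some .ax)
  | (b, some .az) => (b, some .ay)
  | (b, some .bv) => (b, some .az)
  | (b, some .bx) => (b, some .bv)
  | (b, some .by') => (b, some .bx)
  | (b, some .bz) => (b, some .by')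

/-- partner of a link block -/
def tw (i : Ix κ) : Ix κ :=
  if h : i.val < κ + 1 then ⟨i.val + (κ + 1), by omega⟩ else ⟨i.val - (κ + 1), by omega⟩

/-- the chords; `c i j` is the colour of the pair `(i, j)` of the given graph: `0` no edge, `1` blue,
`2` red -/
def sg (c : Ix κ → Ix κ → ℕ) : Hs κ → Hs κ
  | ((i, none), none) => ((i, none), some .bv)
  | ((i, some j), none) =>
    if c i j = 0 then ((j, some i), some .bv) else ((j, some i), none)
  | ((i, none), some .bv) => ((i, none), none)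
  | ((i, some j), some .bv) =>
    if c i j = 0 then ((j, some i), none) else ((j, some i), some .bv)
  | ((i, none), some .ax) => ((tw i, none), some .ax)
  | ((i, some j), some .ax) =>
    if j.val < i.val then ((i, some j), some .bx)
    else if i.val < j.val then ((i, some (dn j)), some .bx)
    else if i.val = 0 then ((lst, none), some .bx)
    else ((dn i, some lst), some .bx)
  | ((i, none), some .bx) =>
    if i.val = 0 then ((i, none), some .az)
    else if i.val = 2 * κ + 1 then ((zr, some zr), some .ax)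
    else if h : i.val ≤ κ then ((⟨i.val + κ, by omega⟩, none), some .bx)
    else ((⟨i.val - κ, by omega⟩, none), some .bx)
  | ((i, some j), some .bx) =>
    if j.val < i.val then ((i, some j), some .ax)
    else if j.val < 2 * κ + 1 then ((i, some (up j)), some .ax)
    else if i.val < 2 * κ + 1 then ((up i, some (up i)), some .ax)
    else ((zr, none), some .by')
  | (b, some .ay) => (pvB b, some .bz)
  | (b, some .bz) => (nxB b, some .ay)
  | ((i, none), some .az) => if i.val = 0 then ((i, none), some .bx) else ((i, none), some .by')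
  | ((i, some j), some .az) => ((i, some j), some .by')
  | ((i, none), some .by') => if i.val = 0 then ((lst, some lst), some .bx) else ((i, none), some .az)
  | ((i, some j), some .by') => ((i, some j), some .az)

/-- the darts of the host: port `0` the chord, port `1` backwards, port `2` forwards -/
def ht (c : Ix κ → Ix κ → ℕ) : Dt (Hs κ) → Dt (Hs κ)
  | (h, 0) => (sg c h, 0)
  | (h, 1) => (pv h, 2)
  | (h, 2) => (nx h, 1)

/-- the colour of the edge to the next vertex -/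
def ncol : Option Sl → Fin 3
  | none => 1
  | some .ax => 2
  | some .ay => 1
  | some .az => 2
  | some .bv => 1
  | some .bx => 2
  | some .by' => 1
  | some .bz => 2

/-- the colour of the edge to the previous vertex -/
def qcol (s : Option Sl) : Fin 3 := if ncol s = 1 then 2 else 1

/-- the 3-edge-colouring of the host -/
def hcol : Dt (Hs κ) → Fin 3
  | (_, 0) => 0
  | ((_, s), 1) => qcol s
  | ((_, s), 2) => ncol s

/-! ### The poles -/

/-- the vertices of a pole: `c1, c2, z` carry the legs `0, 1, 2`; `a` is the apex of a ladder with the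
columns `x j, y j` -/
inductive PV (m : ℕ) : Type
  | c1 | c2 | z | w | a
  | x (j : Fin (m + 1))
  | y (j : Fin (m + 1))
  deriving DecidableEq, Fintype

variable {m : ℕ}

/-- the darts of a pole; `kd = true`: the leg `0` is forced, `kd = false`: the leg `0` is closed -/
def io (kd : Bool) : PV m → Fin 3 → (PV m × Fin 3) ⊕ Fin 3
  | .c1, 0 => .inr 0
  | .c1, 1 => .inl (.c2, 1)
  | .c1, 2 => .inl (if kd then (.x (Fin.last m), 1) else (.y (Fin.last m), 1))
  | .c2, 0 => .inr 1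
  | .c2, 1 => .inl (.c1, 1)
  | .c2, 2 => .inl (.w, 1)
  | .z, 0 => .inr 2
  | .z, 1 => .inl (.w, 2)
  | .z, 2 => .inl (if kd then (.y (Fin.last m), 1) else (.x (Fin.last m), 1))
  | .w, 0 => .inl (.a, 0)
  | .w, 1 => .inl (.c2, 2)
  | .w, 2 => .inl (.z, 1)
  | .a, 0 => .inl (.w, 0)
  | .a, 1 => .inl (.x 0, 0)
  | .a, 2 => .inl (.y 0, 0)
  | .x j, 0 => if h : j.val = 0 then .inl (.a, 1) else .inl (.y ⟨j.val - 1, by omega⟩, 1)
  | .x j, 1 => if h : j.val = m then .inl (if kd then (.c1, 2) else (.z, 2))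
      else .inl (.y ⟨j.val + 1, by omega⟩, 0)
  | .x j, 2 => .inl (.y j, 2)
  | .y j, 0 => if h : j.val = 0 then .inl (.a, 2) else .inl (.x ⟨j.val - 1, by omega⟩, 1)
  | .y j, 1 => if h : j.val = m then .inl (if kd then (.z, 2) else (.c1, 2))
      else .inl (.x ⟨j.val + 1, by omega⟩, 0)
  | .y j, 2 => .inl (.x j, 2)

/-- the vertex carrying a leg (always at its port `0`) -/
def lgv : Fin 3 → PV m
  | 0 => .c1
  | 1 => .c2
  | 2 => .z

/-- red darts inside a pole -/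
def rd : Dt (PV m) → Bool
  | (.a, 2) => true
  | (.x j, 1) => decide (j.val ≠ m)
  | (.x _, 2) => true
  | (.y _, 0) => true
  | (.y _, 2) => true
  | _ => false

/-- the 3-edge-colouring of a pole with the leg colours `0, F, G` -/
def pcol (kd : Bool) (F G : Fin 3) : Dt (PV m) → Fin 3
  | (.c1, 0) => 0
  | (.c1, 1) => G
  | (.c1, 2) => F
  | (.c2, 0) => F
  | (.c2, 1) => G
  | (.c2, 2) => 0
  | (.z, 0) => G
  | (.z, 1) => F
  | (.z, 2) => 0
  | (.w, 0) => G
  | (.w, 1) => 0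
  | (.w, 2) => F
  | (.a, 0) => G
  | (.a, 1) => if kd then 0 else F
  | (.a, 2) => if kd then F else 0
  | (.x _, 0) => if kd then 0 else F
  | (.x _, 1) => if kd then F else 0
  | (.x _, 2) => G
  | (.y _, 0) => if kd then F else 0
  | (.y _, 1) => if kd then 0 else F
  | (.y _, 2) => G

/-! ### The final graph -/

/-- vertices of the final graph: one plain vertex (the first slot) and seven poles in each block -/
abbrev Vt (κ m : ℕ) : Type := Bk κ × Option (Sl × PV m)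

/-- the kind of the poles: forced only in the slot `ax` of the link blocks -/
def kd (b : Bk κ) (s : Sl) : Bool := decide (b.2 = none ∧ s = .ax)

/-- the dart of the final graph for a dart of the host -/
def lft : Dt (Hs κ) → Dt (Vt κ m)
  | ((b, none), l) => ((b, none), l)
  | ((b, some s), l) => ((b, some (s, lgv l)), 0)

/-- the darts of the final graph -/
def ft (c : Ix κ → Ix κ → ℕ) : Dt (Vt κ m) → Dt (Vt κ m)
  | ((b, none), l) => lft (ht c ((b, none), l))
  | ((b, some (s, q)), a) => match io (kd b s) q a with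
    | .inl (q', a') => ((b, some (s, q')), a')
    | .inr l => lft (ht c ((b, some s), l))

/-- the red darts of the final graph -/
def fr (c : Ix κ → Ix κ → ℕ) : Dt (Vt κ m) → Bool
  | (((i, some j), none), 0) => decide (c i j = 2)
  | ((_, some (_, q)), a) => rd (q, a)
  | _ => false

/-- the 3-edge-colouring of the final graph -/
def fcol : Dt (Vt κ m) → Fin 3
  | ((b, none), l) => hcol ((b, none), l)
  | ((b, some (s, q)), a) => pcol (kd b s) (qcol (some s)) (ncol (some s)) (q, a)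

/-! ### Matchings of the host and of the given graph -/

/-- the colours of the given graph -/
structure Sy (c : Ix κ → Ix κ → ℕ) : Prop where
  symm : ∀ i j, c i j = c j i
  diag : ∀ i, c i i = 0
  le : ∀ i j, c i j ≤ 2

/-- the admissible matchings of the host -/
structure HM (c : Ix κ → Ix κ → ℕ) (ω : Hs κ → Fin 3) : Prop where
  isM : IsM (ht c) ω
  forced : ∀ i, ω ((i, none), some .ax) = 0
  closed : ∀ (b : Bk κ) (s : Sl), ¬ (b.2 = none ∧ s = .ax) → ω (b, some s) ≠ 0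

/-- twice the number of red chords of the given graph in `ω` -/
def hcnt (c : Ix κ → Ix κ → ℕ) (ω : Hs κ → Fin 3) : ℕ :=
  (univ.filter fun p : Ix κ × Ix κ => ω ((p.1, some p.2), none) = 0 ∧ c p.1 p.2 = 2).card

/-- perfect matchings of a graph given by a matrix of colours, with `k` red edges -/
def GM {n : ℕ} (c : Fin n → Fin n → ℕ) (k : ℕ) : Prop :=
  ∃ μ : Fin n → Fin n, (∀ i, μ (μ i) = i) ∧ (∀ i, c i (μ i) ≠ 0) ∧
    (univ.filter fun i => c i (μ i) = 2).card = 2 * k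

/-! ### Numbering -/

def nP : PV m → ℕ
  | .c1 => 0
  | .c2 => 1
  | .z => 2
  | .w => 3
  | .a => 4
  | .x j => 5 + j.val
  | .y j => 5 + (m + 1) + j.val

def nS : Sl → ℕ
  | .ax => 1
  | .ay => 2
  | .az => 3
  | .bv => 4
  | .bx => 5
  | .by' => 6
  | .bz => 7

/-- the coordinates `i, p, s, r` of a vertex -/
def ci (v : Vt κ m) : ℕ := v.1.1.val
def cp : Vt κ m → ℕ
  | ((_, none), _) => 0
  | ((_, some j), _) => j.val + 1
def cs : Vt κ m → ℕ
  | (_, none) => 0
  | (_, some (s, _)) => nS s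
def cr : Vt κ m → ℕ
  | (_, none) => 0
  | (_, some (_, q)) => nP q

/-- the size of a pole and of a block, the number of vertices -/
def szP (m : ℕ) : ℕ := 2 * (m + 1) + 5
def szB (m : ℕ) : ℕ := 1 + 7 * szP m
def szN (κ m : ℕ) : ℕ := (2 * κ + 2) * (2 * κ + 3) * szB m

/-- the number of a vertex -/
def nV (v : Vt κ m) : ℕ := (ci v * (2 * κ + 3) + cp v) * szB m +
  (if cs v = 0 then 0 else 1 + (cs v - 1) * szP m + cr v)

/-- the length of the ladders -/
def mm (e κ k : ℕ) : ℕ := 2 * k + 1 + (32 * ((2 * κ + 2) * (2 * κ + 3))) ^ e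

/-! ### Adjacency in coordinates (`n = 2 κ + 2`, `M = m + 1` columns) -/

/-- the next block -/
def aN (n i p i' p' : ℕ) : Prop :=
  (i' = i ∧ p' = p + 1) ∨ (p = n ∧ p' = 0 ∧ i' = i + 1) ∨ (p = n ∧ p' = 0 ∧ i + 1 = n ∧ i' = 0)

/-- blue chords -/
def aC (n : ℕ) (c : ℕ → ℕ → ℕ) (i p s i' p' s' : ℕ) : Prop :=
  (s = 0 ∧ s' = 0 ∧ i' + 1 = p ∧ p' = i + 1 ∧ c i i' ≠ 0 ∧ c i i' ≠ 2) ∨
  (s = 4 ∧ s' = 4 ∧ i' + 1 = p ∧ p' = i + 1 ∧ c i i' ≠ 0) ∨
  (s = 0 ∧ s' = 4 ∧ i' + 1 = p ∧ p' = i + 1 ∧ c i i' = 0) ∨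
  (s = 0 ∧ s' = 4 ∧ p = 0 ∧ p' = 0 ∧ i' = i) ∨
  (s = 1 ∧ s' = 1 ∧ p = 0 ∧ p' = 0 ∧ 2 * i' = 2 * i + n) ∨
  (s = 1 ∧ s' = 5 ∧ i' = i ∧ p' = p ∧ 1 ≤ p ∧ p ≤ i) ∨
  (s = 1 ∧ s' = 5 ∧ i' = i ∧ p = p' + 1 ∧ i + 1 < p) ∨
  (s = 1 ∧ s' = 5 ∧ i + 1 = p ∧ i = i' + 1 ∧ p' = n) ∨
  (s = 1 ∧ s' = 5 ∧ i = 0 ∧ p = 1 ∧ i' + 1 = n ∧ p' = 0) ∨
  (s = 5 ∧ s' = 5 ∧ p = 0 ∧ p' = 0 ∧ 1 ≤ i ∧ 2 * i + 2 ≤ n ∧ 2 * i' + 2 = 2 * i + n) ∨
  (s = 3 ∧ s' = 6 ∧ i' = i ∧ p' = p ∧ (1 ≤ i ∨ 1 ≤ p)) ∨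
  (s = 3 ∧ s' = 5 ∧ i = 0 ∧ p = 0 ∧ i' = 0 ∧ p' = 0) ∨
  (s = 6 ∧ s' = 5 ∧ i = 0 ∧ p = 0 ∧ i' + 1 = n ∧ p' = n) ∨
  (s = 7 ∧ s' = 2 ∧ aN n i p i' p')

/-- blue edges inside a pole -/
def aI (M p s r r' : ℕ) : Prop :=
  (r = 0 ∧ r' = 1) ∨ (r = 1 ∧ r' = 3) ∨ (r = 2 ∧ r' = 3) ∨ (r = 3 ∧ r' = 4) ∨ (r = 4 ∧ r' = 5) ∨
  (p = 0 ∧ s = 1 ∧ r = 0 ∧ r' = M + 4) ∨ (p = 0 ∧ s = 1 ∧ r = 2 ∧ r' = 2 * M + 4) ∨
  ((1 ≤ p ∨ 2 ≤ s) ∧ r = 0 ∧ r' = 2 * M + 4) ∨ ((1 ≤ p ∨ 2 ≤ s) ∧ r = 2 ∧ r' = M + 4) ∨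
  (5 + M ≤ r ∧ r' < 5 + M ∧ r + 1 = r' + M)

/-- blue arcs -/
def aB (n M : ℕ) (c : ℕ → ℕ → ℕ) (i p s r i' p' s' r' : ℕ) : Prop :=
  (s' = s + 1 ∧ i' = i ∧ p' = p ∧ r' = 1 ∧ s = 0 ∧ r = 0) ∨
  (s' = s + 1 ∧ i' = i ∧ p' = p ∧ r' = 1 ∧ 1 ≤ s ∧ r = 2) ∨
  (s = 7 ∧ s' = 0 ∧ r = 2 ∧ r' = 0 ∧ aN n i p i' p') ∨
  (r = 0 ∧ r' = 0 ∧ aC n c i p s i' p' s') ∨
  (1 ≤ s ∧ s' = s ∧ i' = i ∧ p' = p ∧ aI M p s r r')

/-- red arcs -/
def aR (M : ℕ) (c : ℕ → ℕ → ℕ) (i p s r i' p' s' r' : ℕ) : Prop :=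
  (r = 0 ∧ r' = 0 ∧ s = 0 ∧ s' = 0 ∧ i' + 1 = p ∧ p' = i + 1 ∧ c i i' = 2) ∨
  (1 ≤ s ∧ s' = s ∧ i' = i ∧ p' = p ∧ r = 4 ∧ r' = 5 + M) ∨
  (1 ≤ s ∧ s' = s ∧ i' = i ∧ p' = p ∧ 5 ≤ r ∧ r < 5 + M ∧ r' = r + M) ∨
  (1 ≤ s ∧ s' = s ∧ i' = i ∧ p' = p ∧ 5 ≤ r ∧ r + 1 < 5 + M ∧ r' = r + M + 1)

/-- the entry of the matrix of the final graph in coordinates -/
def aE (n M : ℕ) (c : ℕ → ℕ → ℕ) (i p s r i' p' s' r' : ℕ) (t : ℕ) : Prop :=
  t = 2 ∧ (aR M c i p s r i' p' s' r' ∨ aR M c i' p' s' r' i p s r) ∨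
  t = 1 ∧ ¬ (aR M c i p s r i' p' s' r' ∨ aR M c i' p' s' r' i p s r) ∧
    (aB n M c i p s r i' p' s' r' ∨ aB n M c i' p' s' r' i p s r) ∨
  t = 0 ∧ ¬ (aR M c i p s r i' p' s' r' ∨ aR M c i' p' s' r' i p s r) ∧
    ¬ (aB n M c i p s r i' p' s' r' ∨ aB n M c i' p' s' r' i p s r)

open Classical in
/-- the entry of the matrix of the final graph -/
noncomputable def fe (c : Ix κ → Ix κ → ℕ) (v w : Vt κ m) : ℕ :=
  if ∃ a, (ft c (v, a)).1 = w ∧ fr c (v, a) = true then 2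
  else if ∃ a, (ft c (v, a)).1 = w then 1 else 0

end Pool.Agent.H72.EM
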