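import Pool.Agent.H92.EM.TA
import Pool.Agent.H95.EQ.TG

/-!
Board emd_modules (MP_75a732_an), row MRG: matrices near the identity, one entry moves.
-/

set_option autoImplicit false

namespace Pool.Agent.H72.EM

open scoped BigOperators ComplexConjugate
open MeasureTheory Pool.Agent.H92.EQ Pool.Agent.H92.EM Pool.Agent.H95.EQ

theorem th0_pos (k : ℕ) : 0 < th0 k := by
  unfold th0
  positivity

theorem th0_mul (k : ℕ) : ((k : ℝ) + 1) * th0 k = 1 / 8 := by
  unfold th0
  field_simp

theorem th0_le (k : ℕ) : th0 k ≤ 1 / 8 := by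
  have h1 := th0_mul k
  have h2 := th0_pos k
  have h3 : (0 : ℝ) ≤ k := Nat.cast_nonneg k
  nlinarith

theorem rep_same {N : ℕ} (X : Fin N → Fin N → ℂ) (i j : Fin N) (t : ℂ) :
    (Matrix.of (rep X i j t)) i j = t := by simp [rep]

theorem rep_other {N : ℕ} (X : Fin N → Fin N → ℂ) (i j : Fin N) (t : ℂ) (a b : Fin N)
    (h : ¬ (a = i ∧ b = j)) : (Matrix.of (rep X i j t)) a b = X a b := by
  by_cases ha : a = i
  · subst ha
    have hb : b ≠ j := fun hb => h ⟨rfl, hb⟩
    simp [rep, hb]
  · simp [rep, ha]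

/-- strict diagonal dominance -/
theorem det_near {k : ℕ} (X : Fin (k + 1) → Fin (k + 1) → ℂ) (i j : Fin (k + 1))
    (hX : ∀ a b, ‖X a b - (1 : Matrix (Fin (k + 1)) (Fin (k + 1)) ℂ) a b‖ ≤ th0 k) (t : ℂ)
    (ht : ‖t - (1 : Matrix (Fin (k + 1)) (Fin (k + 1)) ℂ) i j‖ < 1 / 2) :
    (Matrix.of (rep X i j t)).det ≠ 0 := by
  refine det_ne_zero_of_sum_row_lt_diag fun a => ?_
  have hoff : ∀ b, b ≠ a → ‖(Matrix.of (rep X i j t)) a b‖ ≤
      th0 k + (if a = i ∧ b = j then 1 / 2 else 0) := by
    intro b hb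
    by_cases h : a = i ∧ b = j
    · obtain ⟨rfl, rfl⟩ := h
      rw [rep_same, if_pos ⟨rfl, rfl⟩]
      rw [Matrix.one_apply_ne (Ne.symm hb), sub_zero] at ht
      linarith [th0_pos k]
    · rw [rep_other X i j t a b h, if_neg h, add_zero]
      have h1 := hX a b
      rwa [Matrix.one_apply_ne (Ne.symm hb), sub_zero] at h1
  have hsum : ∑ b ∈ Finset.univ.erase a, ‖(Matrix.of (rep X i j t)) a b‖ ≤
      1 / 8 + ∑ b ∈ Finset.univ.erase a, (if a = i ∧ b = j then (1 / 2 : ℝ) else 0) := by
    refine (Finset.sum_le_sum fun b hb => hoff b (Finset.ne_of_mem_erase hb)).trans ?_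
    rw [Finset.sum_add_distrib, Finset.sum_const, nsmul_eq_mul]
    have h1 : ((Finset.univ.erase a).card : ℝ) ≤ (k : ℝ) + 1 := by
      have : (Finset.univ.erase a).card ≤ (Finset.univ : Finset (Fin (k + 1))).card :=
        Finset.card_le_card (Finset.erase_subset _ _)
      rw [Finset.card_univ, Fintype.card_fin] at this
      exact_mod_cast this
    have h2 := mul_le_mul_of_nonneg_right h1 (th0_pos k).le
    rw [th0_mul] at h2
    linarith
  by_cases hai : a = i
  · subst hai
    by_cases hj : a = j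
    · subst hj
      have h0 : ∑ b ∈ Finset.univ.erase a, (if a = a ∧ b = a then (1 / 2 : ℝ) else 0) = 0 := by
        refine Finset.sum_eq_zero fun b hb => ?_
        rw [if_neg fun h => Finset.ne_of_mem_erase hb h.2]
      rw [h0] at hsum
      rw [rep_same]
      rw [Matrix.one_apply_eq] at ht
      have h1 : ‖(1 : ℂ)‖ ≤ ‖t‖ + ‖t - 1‖ := by
        have := norm_sub_le t (t - 1)
        simpa using this
      rw [norm_one] at h1
      linarith
    · have h0 : ∑ b ∈ Finset.univ.erase a, (if a = a ∧ b = j then (1 / 2 : ℝ) else 0) ≤ 1 / 2 := by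
        have h2 : ∑ b ∈ Finset.univ.erase a, (if a = a ∧ b = j then (1 / 2 : ℝ) else 0) ≤
            ∑ b : Fin (k + 1), (if b = j then (1 / 2 : ℝ) else 0) := by
          refine (Finset.sum_le_sum_of_subset_of_nonneg (Finset.erase_subset _ _)
            fun b _ _ => ?_).trans (Finset.sum_le_sum fun b _ => ?_)
          · split_ifs <;> norm_num
          · by_cases hb : b = j
            · rw [if_pos ⟨rfl, hb⟩, if_pos hb]
            · rw [if_neg fun h => hb h.2, if_neg hb]
        rw [Finset.sum_ite_eq' Finset.univ j] at h2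
        simpa using h2
      rw [rep_other X a j t a a fun h => hj h.2]
      have h1 := hX a a
      rw [Matrix.one_apply_eq] at h1
      have h3 : ‖(1 : ℂ)‖ ≤ ‖X a a‖ + ‖X a a - 1‖ := by
        have := norm_sub_le (X a a) (X a a - 1)
        simpa using this
      rw [norm_one] at h3
      have := th0_le k
      linarith
  · have h0 : ∑ b ∈ Finset.univ.erase a, (if a = i ∧ b = j then (1 / 2 : ℝ) else 0) = 0 := by
      refine Finset.sum_eq_zero fun b hb => ?_
      rw [if_neg fun h => hai h.1]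
    rw [h0] at hsum
    rw [rep_other X i j t a a fun h => hai h.1]
    have h1 := hX a a
    rw [Matrix.one_apply_eq] at h1
    have h3 : ‖(1 : ℂ)‖ ≤ ‖X a a‖ + ‖X a a - 1‖ := by
      have := norm_sub_le (X a a) (X a a - 1)
      simpa using this
    rw [norm_one] at h3
    have := th0_le k
    linarith

/-- growth when the determinant does not depend on the entry -/
theorem growth_const {N : ℕ} (X : Fin N → Fin N → ℂ) (i j : Fin N) (t1 D : ℂ) (hD : D ≠ 0)
    (hdet : ∀ t, (Matrix.of (rep X i j t)).det = D) :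
    ∃ C : ℝ, ∀ t, t ≠ t1 → ∀ y : Fin N → ℂ, y ≠ 0 →
      |ell ((Matrix.of (rep X i j t)).mulVec y) - ell y| ≤ (N : ℝ) * |Real.log ‖t - t1‖| + C := by
  have hN : 0 < N := i.pos
  have hN1 : (1 : ℝ) ≤ N := by exact_mod_cast hN
  -- bound of the entries
  set K : ℝ := 1 + ‖t1‖ + ∑ a, ∑ b, ‖X a b‖ with hK
  have hsum0 : 0 ≤ ∑ a, ∑ b, ‖X a b‖ :=
    Finset.sum_nonneg fun _ _ => Finset.sum_nonneg fun _ _ => norm_nonneg _
  have hK1 : 1 ≤ K := by
    have := norm_nonneg t1
    linarith
  have hXab : ∀ a b, ‖X a b‖ ≤ ∑ a, ∑ b, ‖X a b‖ := by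
    intro a b
    have e1 : ‖X a b‖ ≤ ∑ b, ‖X a b‖ :=
      Finset.single_le_sum (f := fun b => ‖X a b‖) (fun _ _ => norm_nonneg _) (Finset.mem_univ b)
    have e2 : ∑ b, ‖X a b‖ ≤ ∑ a, ∑ b, ‖X a b‖ :=
      Finset.single_le_sum (f := fun a => ∑ b, ‖X a b‖)
        (fun _ _ => Finset.sum_nonneg fun _ _ => norm_nonneg _) (Finset.mem_univ a)
    exact e1.trans e2
  have hent : ∀ t a b, ‖(Matrix.of (rep X i j t)) a b‖ ≤ K * (1 + ‖t - t1‖) := by
    intro t a b
    have hs := norm_nonneg (t - t1)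
    have hb1 : K ≤ K * (1 + ‖t - t1‖) := by nlinarith
    by_cases hab : a = i ∧ b = j
    · obtain ⟨rfl, rfl⟩ := hab
      rw [rep_same]
      have e2 : ‖t‖ ≤ ‖t - t1‖ + ‖t1‖ := by
        simpa using norm_add_le (t - t1) t1
      nlinarith
    · rw [rep_other X i j t a b hab]
      have := hXab a b
      have := norm_nonneg t1
      linarith
  refine ⟨N * Real.log 2 + |Real.log (N * K)| + |Real.log (N * ((N.factorial : ℝ) * K ^ N))| +
    |Real.log ‖D‖|, ?_⟩
  intro t ht y hy
  set A := Matrix.of (rep X i j t) with hA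
  have hs : 0 < ‖t - t1‖ := norm_pos_iff.2 (sub_ne_zero.2 ht)
  set s := ‖t - t1‖ with hsdef
  have hD1 : A.det = D := hdet t
  have hD0 : A.det ≠ 0 := by rw [hD1]; exact hD
  have hadj : A.adjugate.mulVec (A.mulVec y) = A.det • y := by
    rw [Matrix.mulVec_mulVec, Matrix.adjugate_mul, Matrix.smul_mulVec, Matrix.one_mulVec]
  have hAy : A.mulVec y ≠ 0 := by
    intro h
    rw [h, Matrix.mulVec_zero] at hadj
    exact (smul_ne_zero hD0 hy) hadj.symm
  have hB1 : 1 ≤ K * (1 + s) := by nlinarith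
  have hup := ell_mulVec A (K * (1 + s)) (by linarith) hN (hent t) y hy hAy
  have hadjent : ∀ a b, ‖A.adjugate a b‖ ≤ (N.factorial : ℝ) * (K * (1 + s)) ^ N := by
    intro a b
    rw [Matrix.adjugate_apply]
    have := Matrix.det_le (A := A.updateRow b (Pi.single a 1))
      (abv := NormedField.toAbsoluteValue ℂ) (x := K * (1 + s)) (by
        intro k l
        change ‖A.updateRow b (Pi.single a 1) k l‖ ≤ _
        rw [Matrix.updateRow_apply]
        split_ifs with hk
        · by_cases hl : l = a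
          · subst hl; simpa using hB1
          · rw [Pi.single_eq_of_ne hl, norm_zero]; linarith
        · exact hent t k l)
    rw [nsmul_eq_mul, Fintype.card_fin] at this
    exact this
  have hfac : (0 : ℝ) < N.factorial := by exact_mod_cast N.factorial_pos
  have hlow := ell_mulVec A.adjugate ((N.factorial : ℝ) * (K * (1 + s)) ^ N) (by positivity) hN
    hadjent (A.mulVec y) hAy (by rw [hadj]; exact smul_ne_zero hD0 hy)
  rw [hadj, ell_smul _ hD0 _ hy, hD1] at hlow
  have hl1 := log_one_add_le s hs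
  have e1 : Real.log (N * (K * (1 + s))) = Real.log (N * K) + Real.log (1 + s) := by
    rw [← Real.log_mul (by positivity) (by positivity)]
    congr 1
    ring
  have e2 : Real.log (N * ((N.factorial : ℝ) * (K * (1 + s)) ^ N)) =
      Real.log (N * ((N.factorial : ℝ) * K ^ N)) + N * Real.log (1 + s) := by
    rw [← Real.log_pow, ← Real.log_mul (by positivity) (by positivity)]
    congr 1
    rw [mul_pow]
    ring
  rw [e1] at hup
  rw [e2] at hlow
  have a1 := le_abs_self (Real.log (N * K))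
  have a1' := abs_nonneg (Real.log (N * K))
  have a2 := le_abs_self (Real.log (N * ((N.factorial : ℝ) * K ^ N)))
  have a2' := abs_nonneg (Real.log (N * ((N.factorial : ℝ) * K ^ N)))
  have a3 := neg_abs_le (Real.log ‖D‖)
  have a3' := abs_nonneg (Real.log ‖D‖)
  have hlog2 : 0 < Real.log 2 := Real.log_pos (by norm_num)
  have hl2 : (N : ℝ) * Real.log (1 + s) ≤ N * Real.log 2 + N * max 0 (Real.log s) := by
    have := mul_le_mul_of_nonneg_left hl1 (by positivity : (0 : ℝ) ≤ N)
    linarith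
  have hmx : max 0 (Real.log s) ≤ |Real.log s| := max_le (abs_nonneg _) (le_abs_self _)
  have hmxN : max 0 (Real.log s) ≤ N * |Real.log s| := by
    have := abs_nonneg (Real.log s)
    nlinarith
  have hmxN2 : N * max 0 (Real.log s) ≤ N * |Real.log s| :=
    mul_le_mul_of_nonneg_left hmx (by positivity)
  have hlN : Real.log 2 ≤ N * Real.log 2 := by nlinarith
  rw [abs_le]
  constructor
  · linarith
  · linarith

theorem pf_MRG (hTG : T_TG) : T_MRG := by
  intro k X i j hX
  by_cases hb : (Matrix.of (rep X i j 1)).det - (Matrix.of (rep X i j 0)).det = 0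
  · -- the determinant is constant
    have hc : ∀ t, (Matrix.of (rep X i j t)).det = (Matrix.of (rep X i j 0)).det := by
      intro t
      rw [det_rep X i j t, hb, mul_zero, add_zero]
    have hD : (Matrix.of (rep X i j 0)).det ≠ 0 := by
      rw [← hc ((1 : Matrix (Fin (k + 1)) (Fin (k + 1)) ℂ) i j)]
      exact det_near X i j hX _ (by rw [sub_self, norm_zero]; norm_num)
    obtain ⟨C, hC⟩ := growth_const X i j
      ((1 : Matrix (Fin (k + 1)) (Fin (k + 1)) ℂ) i j + 1) _ hD hc
    refine ⟨(1 : Matrix (Fin (k + 1)) (Fin (k + 1)) ℂ) i j + 1, C, ?_, fun t ht => ⟨?_, ?_⟩⟩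
    · rw [add_sub_cancel_left, norm_one]
      norm_num
    · rw [hc t]
      exact hD
    · intro y hy
      exact hC t ht y hy
  · obtain ⟨t1, C, h1, h2⟩ := hTG (k + 1) X i j hb
    refine ⟨t1, C, ?_, fun t ht => ⟨fun h => ht ((h1 t).1 h), fun y hy => h2 t ht y hy⟩⟩
    by_contra hlt
    exact det_near X i j hX t1 (not_le.1 hlt) ((h1 t1).2 rfl)

end Pool.Agent.H72.EM
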