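import Pool.Agent.H92.EM.TA

/-!
Board emd_modules (MP_75a732_an), row MRK: from the centre to the bump.
-/

set_option autoImplicit false

namespace Pool.Agent.H72.EM

open scoped BigOperators ComplexConjugate ContDiff
open MeasureTheory Pool.Agent.H92.EQ Pool.Agent.H92.EM

namespace MRK

theorem lapl_comp_sub (f : ℂ → ℝ) (c t : ℂ) : lapl (fun s => f (s - c)) t = lapl f (t - c) := by
  unfold lapl
  have h1 : ∀ v : ℂ, (fun s => fderiv ℝ (fun s => f (s - c)) s v) =
      fun s => (fun r => fderiv ℝ f r v) (s - c) := by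
    intro v
    funext s
    rw [fderiv_comp_sub]
  have h2 : ∀ v : ℂ, fderiv ℝ (fun s => (fun r => fderiv ℝ f r v) (s - c)) t =
      fderiv ℝ (fun r => fderiv ℝ f r v) (t - c) := by
    intro v
    exact fderiv_comp_sub (f := fun r => fderiv ℝ f r v) c
  rw [h1 1, h1 Complex.I, h2 1, h2 Complex.I]

theorem integrable_mul (c t1 : ℂ) (θ : ℝ) (h1 : θ < ‖t1 - c‖) (g a : ℂ → ℝ) (hg : Continuous g)
    (hg0 : ∀ t, θ ≤ ‖t‖ → g t = 0) (ha : ContinuousOn a {t1}ᶜ) :
    Integrable (fun t => g (t - c) * a t) := by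
  have hsub : Metric.closedBall c θ ⊆ {t1}ᶜ := by
    intro t ht h
    rw [Set.mem_singleton_iff] at h
    rw [Metric.mem_closedBall, dist_eq_norm, h] at ht
    linarith
  have hon : IntegrableOn (fun t => g (t - c) * a t) (Metric.closedBall c θ) := by
    refine ContinuousOn.integrableOn_compact (isCompact_closedBall c θ) ?_
    exact ((hg.comp (continuous_id.sub continuous_const)).continuousOn).mul (ha.mono hsub)
  refine (integrableOn_iff_integrable_of_support_subset ?_).1 hon
  intro t ht
  rw [Function.mem_support] at ht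
  rw [Metric.mem_closedBall, dist_eq_norm]
  by_contra hcon
  apply ht
  rw [hg0 (t - c) (not_le.1 hcon).le, zero_mul]

end MRK

open MRK

theorem pf_MRK (hBU : T_MBU) : T_MRK := by
  obtain ⟨C, hC, hbu, hψ⟩ := hBU
  intro c t1 θ a m m' hθ hθ1 ha hmm hm hm' hW
  obtain ⟨hcd, hnn, hle, hsupp, hint, hone⟩ := hbu θ hθ
  have hct1 : c ≠ t1 := by
    intro h
    rw [h, sub_self, norm_zero] at hθ1
    linarith
  have hball : ∀ t : ℂ, ‖t - c‖ < θ → t ≠ t1 := by
    intro t ht h
    rw [h] at ht
    linarith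
  -- the bound for one scale
  have hscale : ∀ ε : ℝ, 0 < ε → ε ≤ θ →
      ENNReal.ofReal |(∫ t, bs θ (t - c) * a t) - ∫ t, bs ε (t - c) * a t| ≤
      (∫⁻ t in {t : ℂ | ‖t - c‖ < θ},
        ENNReal.ofReal (Real.log (θ / ‖t - c‖)) * ENNReal.ofReal (m t)) +
      (∫⁻ t in {t : ℂ | ‖t - c‖ < θ},
        ENNReal.ofReal (Real.log (θ / ‖t - c‖)) * ENNReal.ofReal (m' t)) := by
    intro ε hε hεθ
    obtain ⟨hcd', hnn', hle', hsupp', hint', hone'⟩ := hbu ε hε
    obtain ⟨ψ, p1, p2, p3, p4, p5, p6, p7⟩ := hψ ε θ hε hεθ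
    have hf : Tst {t1}ᶜ (fun t => ψ (t - c)) := by
      have hs : Function.support (fun t => ψ (t - c)) ⊆ Metric.closedBall c θ := by
        intro t ht
        rw [Function.mem_support] at ht
        rw [Metric.mem_closedBall, dist_eq_norm]
        by_contra hcon
        exact ht (p3 (t - c) (not_le.1 hcon).le)
      refine ⟨p1.comp (contDiff_id.sub contDiff_const), ?_, ?_⟩
      · exact HasCompactSupport.of_support_subset_isCompact (isCompact_closedBall c θ) hs
      · refine (closure_minimal hs Metric.isClosed_closedBall).trans ?_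
        intro t ht h
        rw [Set.mem_singleton_iff] at h
        rw [Metric.mem_closedBall, dist_eq_norm, h] at ht
        linarith
    have hw := hW _ hf
    have e1 : ∫ t, lapl (fun t => ψ (t - c)) t * a t =
        (∫ t, bs θ (t - c) * a t) - ∫ t, bs ε (t - c) * a t := by
      rw [← integral_sub (integrable_mul c t1 θ hθ1 (bs θ) a hcd.continuous hsupp ha)
        (integrable_mul c t1 θ hθ1 (bs ε) a hcd'.continuous
          (fun t ht => hsupp' t (hεθ.trans ht)) ha)]
      refine integral_congr_ae (Filter.Eventually.of_forall fun t => ?_)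
      simp only
      rw [lapl_comp_sub, p4]
      ring
    rw [e1] at hw
    rw [hw]
    have hset : MeasurableSet {t : ℂ | ‖t - c‖ < θ} :=
      measurableSet_lt ((measurable_id.sub measurable_const).norm) measurable_const
    have hlog : Measurable fun t : ℂ => ENNReal.ofReal (Real.log (θ / ‖t - c‖)) :=
      (Real.measurable_log.comp (measurable_const.div
        ((measurable_id.sub measurable_const).norm))).ennreal_ofReal
    have hmM : AEMeasurable m (volume.restrict {t : ℂ | ‖t - c‖ < θ}) :=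
      (hm.mono fun t ht => hball t ht).aemeasurable hset
    have hlogm : AEMeasurable (fun t : ℂ => ENNReal.ofReal (Real.log (θ / ‖t - c‖)) *
        ENNReal.ofReal (m t)) (volume.restrict {t : ℂ | ‖t - c‖ < θ}) :=
      hlog.aemeasurable.mul hmM.ennreal_ofReal
    rw [← lintegral_add_left' hlogm, ← lintegral_indicator hset]
    have e2 : ENNReal.ofReal |∫ t, ψ (t - c) * (m t - m' t)| =
        ‖∫ t, ψ (t - c) * (m t - m' t)‖ₑ := by
      rw [Real.enorm_eq_ofReal_abs]
    rw [e2]
    refine (enorm_integral_le_lintegral_enorm _).trans ?_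
    refine lintegral_mono_ae ?_
    have hne : ∀ᵐ t : ℂ, t ≠ c := by
      rw [ae_iff]
      simp
    filter_upwards [hne] with t ht
    by_cases htθ : ‖t - c‖ < θ
    · rw [Set.indicator_of_mem (show t ∈ {t : ℂ | ‖t - c‖ < θ} from htθ)]
      obtain ⟨q1, q2⟩ := hmm t (hball t htθ)
      have q3 := p7 (t - c) (sub_ne_zero.2 ht) htθ
      have q4 := p5 (t - c)
      have q5 : 0 ≤ Real.log (θ / ‖t - c‖) := q4.trans q3
      rw [← ENNReal.ofReal_mul q5, ← ENNReal.ofReal_mul q5,
        ← ENNReal.ofReal_add (mul_nonneg q5 q1) (mul_nonneg q5 q2), Real.enorm_eq_ofReal_abs]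
      refine ENNReal.ofReal_le_ofReal ?_
      rw [abs_mul, abs_of_nonneg q4, ← mul_add]
      refine mul_le_mul q3 ?_ (abs_nonneg _) q5
      rw [abs_le]
      constructor
      · linarith
      · linarith
    · rw [p3 (t - c) (not_lt.1 htθ), zero_mul]
      simp
  -- the approximate identity
  refine ENNReal.le_of_forall_pos_le_add fun η hη _ => ?_
  have hη' : (0 : ℝ) < η := hη
  have hcont : ContinuousAt a c := by
    refine ha.continuousAt ?_
    exact isOpen_compl_singleton.mem_nhds hct1
  obtain ⟨δ, hδ, hδa⟩ := Metric.continuousAt_iff.1 hcont η hη'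
  set ε : ℝ := min (δ / 2) θ with hε
  have hε0 : 0 < ε := lt_min (by positivity) hθ
  have hεθ : ε ≤ θ := min_le_right _ _
  have hεδ : ε < δ := by
    have := min_le_left (δ / 2) θ
    linarith
  obtain ⟨hcd', hnn', hle', hsupp', hint', hone'⟩ := hbu ε hε0
  have hI : Integrable fun t => bs ε (t - c) := hint'.comp_sub_right c
  have hone2 : ∫ t, bs ε (t - c) = 1 := by
    rw [integral_sub_right_eq_self (fun t => bs ε t) c]
    exact hone'
  have hIa := integrable_mul c t1 θ hθ1 (bs ε) a hcd'.continuous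
    (fun t ht => hsupp' t (hεθ.trans ht)) ha
  have happ : |a c - ∫ t, bs ε (t - c) * a t| ≤ η := by
    have e3 : a c - ∫ t, bs ε (t - c) * a t = ∫ t, bs ε (t - c) * (a c - a t) := by
      have : ∀ t, bs ε (t - c) * (a c - a t) = bs ε (t - c) * a c - bs ε (t - c) * a t := by
        intro t
        ring
      simp_rw [this]
      rw [integral_sub (hI.mul_const _) hIa, integral_mul_const, hone2, one_mul]
    rw [e3]
    have e4 : ∫ t, bs ε (t - c) * (η : ℝ) = η := by
      rw [integral_mul_const, hone2, one_mul]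
    rw [← e4, ← Real.norm_eq_abs]
    refine norm_integral_le_of_norm_le (hI.mul_const _)
      (Filter.Eventually.of_forall fun t => ?_)
    rw [norm_mul, Real.norm_eq_abs, Real.norm_eq_abs, abs_of_nonneg (hnn' _)]
    by_cases hts : ε ≤ ‖t - c‖
    · rw [hsupp' _ hts, zero_mul, zero_mul]
    · refine mul_le_mul_of_nonneg_left ?_ (hnn' _)
      have h5 := hδa (x := t) (by
        rw [dist_eq_norm]
        exact (not_le.1 hts).trans hεδ)
      rw [Real.dist_eq] at h5
      rw [abs_sub_comm]
      exact h5.le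
  have htri : |a c - ∫ t, bs θ (t - c) * a t| ≤
      |(∫ t, bs θ (t - c) * a t) - ∫ t, bs ε (t - c) * a t| + η := by
    have h6 := abs_sub_le (a c) (∫ t, bs ε (t - c) * a t) (∫ t, bs θ (t - c) * a t)
    rw [abs_sub_comm (∫ t, bs ε (t - c) * a t)] at h6
    linarith
  calc ENNReal.ofReal |a c - ∫ t, bs θ (t - c) * a t|
      ≤ ENNReal.ofReal (|(∫ t, bs θ (t - c) * a t) - ∫ t, bs ε (t - c) * a t| + η) :=
        ENNReal.ofReal_le_ofReal htri
    _ = ENNReal.ofReal |(∫ t, bs θ (t - c) * a t) - ∫ t, bs ε (t - c) * a t| + η := by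
        rw [ENNReal.ofReal_add (abs_nonneg _) hη'.le, ENNReal.ofReal_coe_nnreal]
    _ ≤ _ := by
        gcongr
        exact hscale ε hε0 hεθ

end Pool.Agent.H72.EM
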