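import Mathlib

/-!
Board emd_modules (MP_75a732_an), row MSB, first part: laws of products.
-/

set_option autoImplicit false

namespace Pool.Agent.H72.EM

open scoped BigOperators
open MeasureTheory

/-- laws with bounded densities, coordinate by coordinate -/
theorem prod_law {E F : Type} [MeasurableSpace E] [MeasurableSpace F] (μ : Measure E)
    [SigmaFinite μ] (lam : Measure F) [SigmaFinite lam] :
    ∀ (n : ℕ) (ρ : Fin n → E → ENNReal) (T : Fin n → E → F) (c : Fin n → ENNReal),
    (∀ i, Measurable (ρ i)) → (∀ i, Measurable (T i)) →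
    (∀ i, ∀ g : F → ENNReal, Measurable g →
      ∫⁻ x, ρ i x * g (T i x) ∂μ ≤ c i * ∫⁻ w, g w ∂lam) →
    ∀ h : (Fin n → F) → ENNReal, Measurable h →
      ∫⁻ X : Fin n → E, (∏ i, ρ i (X i)) * h (fun i => T i (X i)) ∂(Measure.pi fun _ => μ) ≤
        (∏ i, c i) * ∫⁻ Y, h Y ∂(Measure.pi fun _ => lam) := by
  intro n
  induction n with
  | zero =>
    intro ρ T c hρ hT hc h hh
    rw [Measure.pi_of_empty (fun _ : Fin 0 => μ), Measure.pi_of_empty (fun _ : Fin 0 => lam)]
    have hm : Measurable fun X : Fin 0 → E =>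
        (∏ i, ρ i (X i)) * h (fun i => T i (X i)) := by
      have : (fun X : Fin 0 → E => (∏ i, ρ i (X i)) * h (fun i => T i (X i))) =
          fun _ => h isEmptyElim := by
        funext X
        rw [Finset.univ_eq_empty, Finset.prod_empty, one_mul]
        congr 1
        exact Subsingleton.elim _ _
      rw [this]
      exact measurable_const
    rw [lintegral_dirac' _ hm, lintegral_dirac' _ hh]
    rw [Finset.univ_eq_empty, Finset.prod_empty, Finset.prod_empty]
    refine le_of_eq ?_
    congr 2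
    exact Subsingleton.elim _ _
  | succ n ih =>
    intro ρ T c hρ hT hc h hh
    have e1 := (measurePreserving_piFinSuccAbove (fun _ : Fin (n + 1) => μ) 0).symm
    have e2 := (measurePreserving_piFinSuccAbove (fun _ : Fin (n + 1) => lam) 0).symm
    rw [← e1.lintegral_comp_emb (MeasurableEquiv.measurableEmbedding _)]
    rw [← e2.lintegral_comp_emb (MeasurableEquiv.measurableEmbedding _)]
    have hF : Measurable fun X : Fin (n + 1) → E =>
        (∏ i, ρ i (X i)) * h (fun i => T i (X i)) := by
      refine Measurable.mul ?_ ?_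
      · exact Finset.measurable_fun_prod _ fun i _ => (hρ i).comp (measurable_pi_apply i)
      · exact hh.comp (measurable_pi_lambda _ fun i => (hT i).comp (measurable_pi_apply i))
    have hF' : Measurable fun p : E × (Fin n → E) =>
        (∏ i, ρ i ((MeasurableEquiv.piFinSuccAbove (fun _ : Fin (n + 1) => E) 0).symm p i)) *
        h (fun i => T i ((MeasurableEquiv.piFinSuccAbove (fun _ : Fin (n + 1) => E) 0).symm p i)) :=
      hF.comp (MeasurableEquiv.piFinSuccAbove (fun _ : Fin (n + 1) => E) 0).symm.measurable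
    have hh' : Measurable fun p : F × (Fin n → F) =>
        h ((MeasurableEquiv.piFinSuccAbove (fun _ : Fin (n + 1) => F) 0).symm p) :=
      hh.comp (MeasurableEquiv.piFinSuccAbove (fun _ : Fin (n + 1) => F) 0).symm.measurable
    rw [lintegral_prod _ hF'.aemeasurable, lintegral_prod _ hh'.aemeasurable]
    set G : F → ENNReal := fun w => (∏ i : Fin n, c i.succ) *
      ∫⁻ Y' : Fin n → F, h ((MeasurableEquiv.piFinSuccAbove (fun _ : Fin (n + 1) => F) 0).symm
        (w, Y')) ∂(Measure.pi fun _ => lam) with hG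
    have hGm : Measurable G := by
      refine Measurable.const_mul ?_ _
      exact Measurable.lintegral_prod_right' hh'
    have step : ∀ x : E, ∫⁻ X' : Fin n → E,
        ((∏ i, ρ i (((MeasurableEquiv.piFinSuccAbove (fun _ : Fin (n + 1) => E) 0).symm
          (x, X')) i)) *
        h (fun i => T i (((MeasurableEquiv.piFinSuccAbove (fun _ : Fin (n + 1) => E) 0).symm
          (x, X')) i))) ∂(Measure.pi fun _ => μ) ≤ ρ 0 x * G (T 0 x) := by
      intro x
      have h1 : ∀ X' : Fin n → E,
          ((∏ i, ρ i (((MeasurableEquiv.piFinSuccAbove (fun _ : Fin (n + 1) => E) 0).symm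
            (x, X')) i)) *
          h (fun i => T i (((MeasurableEquiv.piFinSuccAbove (fun _ : Fin (n + 1) => E) 0).symm
            (x, X')) i))) =
          ρ 0 x * ((∏ i : Fin n, ρ i.succ (X' i)) *
            h ((MeasurableEquiv.piFinSuccAbove (fun _ : Fin (n + 1) => F) 0).symm
              (T 0 x, fun i => T i.succ (X' i)))) := by
        intro X'
        rw [Fin.prod_univ_succ, mul_assoc]
        congr 2
        congr 1
        funext i
        refine Fin.cases ?_ (fun i => ?_) i
        · rfl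
        · rfl
      simp_rw [h1]
      rw [lintegral_const_mul]
      · refine mul_le_mul_right ?_ _
        exact ih (fun i => ρ i.succ) (fun i => T i.succ) (fun i => c i.succ)
          (fun i => hρ i.succ) (fun i => hT i.succ) (fun i => hc i.succ)
          (fun Y' => h ((MeasurableEquiv.piFinSuccAbove (fun _ : Fin (n + 1) => F) 0).symm
            (T 0 x, Y'))) (hh'.comp measurable_prodMk_left)
      · refine Measurable.mul ?_ ?_
        · exact Finset.measurable_fun_prod _ fun i _ => (hρ i.succ).comp (measurable_pi_apply i)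
        · refine hh'.comp (measurable_const.prodMk
            (measurable_pi_lambda _ fun i => (hT i.succ).comp (measurable_pi_apply i)))
    calc _ ≤ ∫⁻ x, ρ 0 x * G (T 0 x) ∂μ := lintegral_mono step
      _ ≤ c 0 * ∫⁻ w, G w ∂lam := hc 0 G hGm
      _ = _ := by
        rw [hG, lintegral_const_mul _ (Measurable.lintegral_prod_right' hh'),
          Fin.prod_univ_succ, mul_assoc]

/-- a product of densities of total mass at most one has total mass at most one -/
theorem prod_mass {E : Type} [MeasurableSpace E] (μ : Measure E) [SigmaFinite μ] (n : ℕ)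
    (ρ : Fin n → E → ENNReal) (hρ : ∀ i, Measurable (ρ i)) (h1 : ∀ i, ∫⁻ x, ρ i x ∂μ ≤ 1) :
    ∫⁻ X : Fin n → E, (∏ i, ρ i (X i)) ∂(Measure.pi fun _ => μ) ≤ 1 := by
  have h := prod_law μ (Measure.dirac ()) n ρ (fun _ _ => ()) (fun _ => 1) hρ
    (fun _ => measurable_const) (fun i g hg => by
      rw [lintegral_dirac, one_mul]
      rw [lintegral_mul_const _ (hρ i)]
      calc _ ≤ 1 * g () := mul_le_mul_left (h1 i) _
        _ = g () := one_mul _) (fun _ => 1) measurable_const
  simpa using h

/-- multiplication by a complex number -/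
theorem lintegral_affine (g : ℂ → ENNReal) (hg : Measurable g) (s b : ℂ) (hb : b ≠ 0) :
    ∫⁻ t : ℂ, g (s + b * t) = ENNReal.ofReal ((‖b‖ ^ 2)⁻¹) * ∫⁻ w, g w := by
  have hdet : LinearMap.det (Algebra.lmul ℝ ℂ b) = ‖b‖ ^ 2 := by
    rw [← Algebra.norm_apply, Algebra.norm_complex_apply, Complex.normSq_eq_norm_sq]
  have hb2 : (0 : ℝ) < ‖b‖ ^ 2 := by
    have := norm_pos_iff.2 hb
    positivity
  have h1 := Measure.map_linearMap_addHaar_eq_smul_addHaar (volume : Measure ℂ)
    (f := Algebra.lmul ℝ ℂ b) (by rw [hdet]; exact hb2.ne')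
  rw [hdet, abs_of_pos (inv_pos.2 hb2)] at h1
  have hgs : Measurable fun w : ℂ => g (s + w) := hg.comp (measurable_const.add measurable_id)
  have hm : Measurable (Algebra.lmul ℝ ℂ b : ℂ → ℂ) := by
    have : (Algebra.lmul ℝ ℂ b : ℂ → ℂ) = fun t => b * t := by
      funext t
      simp
    rw [this]
    exact measurable_const.mul measurable_id
  have h2 : ∫⁻ t : ℂ, g (s + b * t) =
      ∫⁻ w, g (s + w) ∂(Measure.map (Algebra.lmul ℝ ℂ b) volume) := by
    rw [lintegral_map hgs hm]
    rfl
  rw [h2, h1, lintegral_smul_measure, lintegral_add_left_eq_self]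
  rfl

/-- one row: the image of a product density under an affine function -/
theorem row_law (k : ℕ) (β : ℂ → ENNReal) (hβ : Measurable β) (B : ENNReal) (hB : ∀ t, β t ≤ B)
    (h1 : ∫⁻ t, β t ≤ 1) (a : ℂ) (b : Fin (k + 1) → ℂ) (j0 : Fin (k + 1)) (hj0 : b j0 ≠ 0)
    (g : ℂ → ENNReal) (hg : Measurable g) :
    ∫⁻ x : Fin (k + 1) → ℂ, (∏ j, β (x j)) * g (a + ∑ j, x j * b j) ≤
      (B * ENNReal.ofReal ((‖b j0‖ ^ 2)⁻¹)) * ∫⁻ w, g w := by
  have e1 := (measurePreserving_piFinSuccAbove
    (fun _ : Fin (k + 1) => (volume : Measure ℂ)) j0).symm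
  rw [volume_pi, ← e1.lintegral_comp_emb (MeasurableEquiv.measurableEmbedding _)]
  have hkey : ∀ p : ℂ × (Fin k → ℂ),
      (∏ j, β ((MeasurableEquiv.piFinSuccAbove (fun _ : Fin (k + 1) => ℂ) j0).symm p j)) *
        g (a + ∑ j, (MeasurableEquiv.piFinSuccAbove (fun _ : Fin (k + 1) => ℂ) j0).symm p j * b j) =
      (∏ j, β (p.2 j)) * (β p.1 * g ((a + ∑ j, p.2 j * b (j0.succAbove j)) + b j0 * p.1)) := by
    rintro ⟨t, x⟩
    rw [Fin.prod_univ_succAbove _ j0, Fin.sum_univ_succAbove _ j0]
    have e2 : (MeasurableEquiv.piFinSuccAbove (fun _ : Fin (k + 1) => ℂ) j0).symm (t, x) j0 =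
        t := by
      simp [MeasurableEquiv.piFinSuccAbove]
    have e3 : ∀ j, (MeasurableEquiv.piFinSuccAbove (fun _ : Fin (k + 1) => ℂ) j0).symm (t, x)
        (j0.succAbove j) = x j := by
      intro j
      simp [MeasurableEquiv.piFinSuccAbove]
    simp_rw [e2, e3]
    rw [mul_comm (β t), mul_assoc]
    congr 3
    ring
  simp_rw [hkey]
  have hm : Measurable fun p : ℂ × (Fin k → ℂ) =>
      (∏ j, β (p.2 j)) * (β p.1 * g ((a + ∑ j, p.2 j * b (j0.succAbove j)) + b j0 * p.1)) := by
    refine Measurable.mul ?_ (Measurable.mul (hβ.comp measurable_fst) (hg.comp ?_))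
    · exact Finset.measurable_fun_prod _ fun i _ =>
        hβ.comp ((measurable_pi_apply i).comp measurable_snd)
    · refine Measurable.add (Measurable.add measurable_const ?_)
        (measurable_const.mul measurable_fst)
      exact Finset.measurable_fun_sum _ fun i _ =>
        ((measurable_pi_apply i).comp measurable_snd).mul measurable_const
  rw [lintegral_prod_symm' _ hm]
  have hin : ∀ x : Fin k → ℂ, ∫⁻ t : ℂ, (∏ j, β (x j)) *
      (β t * g ((a + ∑ j, x j * b (j0.succAbove j)) + b j0 * t)) ≤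
      (∏ j, β (x j)) * ((B * ENNReal.ofReal ((‖b j0‖ ^ 2)⁻¹)) * ∫⁻ w, g w) := by
    intro x
    rw [lintegral_const_mul]
    · refine mul_le_mul_right ?_ _
      calc ∫⁻ t : ℂ, β t * g ((a + ∑ j, x j * b (j0.succAbove j)) + b j0 * t)
          ≤ ∫⁻ t : ℂ, B * g ((a + ∑ j, x j * b (j0.succAbove j)) + b j0 * t) :=
            lintegral_mono fun t => mul_le_mul_left (hB t) _
        _ = B * ∫⁻ t : ℂ, g ((a + ∑ j, x j * b (j0.succAbove j)) + b j0 * t) := by
            rw [lintegral_const_mul]
            exact hg.comp (measurable_const.add (measurable_const.mul measurable_id))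
        _ = (B * ENNReal.ofReal ((‖b j0‖ ^ 2)⁻¹)) * ∫⁻ w, g w := by
            rw [lintegral_affine g hg _ _ hj0, mul_assoc]
    · exact hβ.mul (hg.comp (measurable_const.add (measurable_const.mul measurable_id)))
  calc _ ≤ ∫⁻ x : Fin k → ℂ, (∏ j, β (x j)) *
        ((B * ENNReal.ofReal ((‖b j0‖ ^ 2)⁻¹)) * ∫⁻ w, g w) ∂(Measure.pi fun _ => volume) :=
        lintegral_mono hin
    _ = (∫⁻ x : Fin k → ℂ, (∏ j, β (x j)) ∂(Measure.pi fun _ => volume)) *
        ((B * ENNReal.ofReal ((‖b j0‖ ^ 2)⁻¹)) * ∫⁻ w, g w) := by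
        rw [lintegral_mul_const]
        exact Finset.measurable_fun_prod _ fun i _ => hβ.comp (measurable_pi_apply i)
    _ ≤ 1 * ((B * ENNReal.ofReal ((‖b j0‖ ^ 2)⁻¹)) * ∫⁻ w, g w) :=
        mul_le_mul_left (prod_mass volume k (fun _ => β) (fun _ => hβ) (fun _ => h1)) _
    _ = _ := one_mul _

end Pool.Agent.H72.EM
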