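import Pool.Agent.H92.EM.TA
import Pool.Agent.H72.EM.MSBa

/-!
Board emd_modules (MP_75a732_an), row MSB: the density of the image of a point.
-/

set_option autoImplicit false

namespace Pool.Agent.H72.EM

open scoped BigOperators ComplexConjugate
open MeasureTheory Pool.Agent.H92.EQ Pool.Agent.H92.EM

namespace MSB

variable {k : ℕ}

/-- the coefficients of the rows of `mX m X y` -/
noncomputable def cf (m : ℕ) (y : Fin (k + 1) → ℂ) (i j : Fin (k + 1)) : ℂ :=
  if (i : ℕ) < m then (if j = i then y i else 0) else y j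

theorem mulVec_eq (m : ℕ) (X : Fin (k + 1) → Fin (k + 1) → ℂ) (y : Fin (k + 1) → ℂ) :
    (mX m X).mulVec y = fun i => y i + ∑ j, X i j * cf m y i j := by
  funext i
  unfold Matrix.mulVec dotProduct mX msk cf
  by_cases hi : (i : ℕ) < m
  · simp only [hi, true_and, if_true]
    rw [Finset.sum_eq_single i]
    · rw [Finset.sum_eq_single i]
      · simp
        ring
      · intro j _ hj
        rw [if_neg hj, mul_zero]
      · intro h
        exact absurd (Finset.mem_univ i) h
    · intro j _ hj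
      rw [if_pos hj, zero_mul]
    · intro h
      exact absurd (Finset.mem_univ i) h
  · simp only [hi, false_and, if_false]
    have : ∀ j, (1 + Matrix.of X : Matrix (Fin (k + 1)) (Fin (k + 1)) ℂ) i j * y j =
        (1 : Matrix (Fin (k + 1)) (Fin (k + 1)) ℂ) i j * y j + X i j * y j := by
      intro j
      rw [Matrix.add_apply, Matrix.of_apply]
      ring
    simp_rw [this]
    rw [Finset.sum_add_distrib]
    congr 1
    rw [Finset.sum_eq_single i]
    · rw [Matrix.one_apply_eq, one_mul]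
    · intro j _ hj
      rw [Matrix.one_apply_ne (Ne.symm hj), zero_mul]
    · intro h
      exact absurd (Finset.mem_univ i) h

theorem single_le_nsq (y : Fin (k + 1) → ℂ) (i : Fin (k + 1)) : ‖y i‖ ^ 2 ≤ nsq y :=
  Finset.single_le_sum (f := fun i => ‖y i‖ ^ 2) (fun _ _ => by positivity) (Finset.mem_univ i)

theorem cf_sq (m : ℕ) (y : Fin (k + 1) → ℂ) (i : Fin (k + 1)) :
    ∑ j, ‖cf m y i j‖ ^ 2 ≤ nsq y := by
  unfold cf
  by_cases hi : (i : ℕ) < m
  · simp only [hi, if_true]
    rw [Finset.sum_eq_single i]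
    · rw [if_pos rfl]
      exact single_le_nsq y i
    · intro j _ hj
      rw [if_neg hj, norm_zero]
      norm_num
    · intro h
      exact absurd (Finset.mem_univ i) h
  · simp only [hi, if_false]
    exact le_rfl

theorem th_sq (k : ℕ) : ((k : ℝ) + 1) * (((k : ℝ) + 1) * th0 k ^ 2) = 1 / 64 := by
  unfold th0
  field_simp
  norm_num

theorem th_pos (k : ℕ) : 0 < th0 k := by
  unfold th0
  positivity

theorem th_le (k : ℕ) : th0 k ≤ 1 / 8 := by
  unfold th0
  have h3 : (0 : ℝ) ≤ k := Nat.cast_nonneg k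
  rw [div_le_div_iff₀ (by positivity) (by norm_num)]
  linarith

theorem diff_sq (m : ℕ) (X : Fin (k + 1) → Fin (k + 1) → ℂ) (y : Fin (k + 1) → ℂ)
    (hy : nsq y = 1) (hX : ∀ i j, ‖X i j‖ ≤ th0 k) (i : Fin (k + 1)) :
    ‖∑ j, X i j * cf m y i j‖ ^ 2 ≤ ((k : ℝ) + 1) * th0 k ^ 2 := by
  have h2 : ‖∑ j, X i j * cf m y i j‖ ≤ ∑ j, th0 k * ‖cf m y i j‖ := by
    refine (norm_sum_le _ _).trans (Finset.sum_le_sum fun b _ => ?_)
    rw [norm_mul]
    exact mul_le_mul_of_nonneg_right (hX i b) (norm_nonneg _)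
  have h3 : (∑ j, th0 k * ‖cf m y i j‖) ^ 2 ≤
      ((k : ℝ) + 1) * ∑ j, (th0 k * ‖cf m y i j‖) ^ 2 := by
    have := sq_sum_le_card_mul_sum_sq (s := (Finset.univ : Finset (Fin (k + 1))))
      (f := fun j => th0 k * ‖cf m y i j‖)
    simpa using this
  have h4 : ∑ j, (th0 k * ‖cf m y i j‖) ^ 2 ≤ th0 k ^ 2 * 1 := by
    have e : ∑ j, (th0 k * ‖cf m y i j‖) ^ 2 = th0 k ^ 2 * ∑ j, ‖cf m y i j‖ ^ 2 := by
      rw [Finset.mul_sum]
      exact Finset.sum_congr rfl fun b _ => by ring
    rw [e]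
    refine mul_le_mul_of_nonneg_left ?_ (by positivity)
    rw [← hy]
    exact cf_sq m y i
  calc ‖∑ j, X i j * cf m y i j‖ ^ 2 ≤ (∑ j, th0 k * ‖cf m y i j‖) ^ 2 :=
        pow_le_pow_left₀ (norm_nonneg _) h2 2
    _ ≤ ((k : ℝ) + 1) * ∑ j, (th0 k * ‖cf m y i j‖) ^ 2 := h3
    _ ≤ ((k : ℝ) + 1) * (th0 k ^ 2 * 1) := mul_le_mul_of_nonneg_left h4 (by positivity)
    _ = _ := by ring

theorem sq_add_le (a b : ℂ) : ‖a + b‖ ^ 2 ≤ 2 * ‖a‖ ^ 2 + 2 * ‖b‖ ^ 2 := by
  have h1 := norm_add_le a b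
  have h2 := norm_nonneg (a + b)
  nlinarith [sq_nonneg (‖a‖ - ‖b‖), norm_nonneg a, norm_nonneg b]

/-- the region -/
def reg (m : ℕ) (y : Fin (k + 1) → ℂ) : Set (Fin (k + 1) → ℂ) :=
  {Y | (1 / 2 ≤ nrm Y ∧ nrm Y ≤ 2) ∧
    ∀ i : Fin (k + 1), (i : ℕ) < m → ‖y i‖ / 2 ≤ ‖Y i‖ ∧ ‖Y i‖ ≤ 2 * ‖y i‖}

theorem measurable_nrm : Measurable (nrm : (Fin (k + 1) → ℂ) → ℝ) := by
  have : Measurable (nsq : (Fin (k + 1) → ℂ) → ℝ) := by
    unfold nsq
    exact Finset.measurable_fun_sum _ fun i _ => ((measurable_pi_apply i).norm).pow_const 2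
  exact this.sqrt

theorem measurableSet_reg (m : ℕ) (y : Fin (k + 1) → ℂ) : MeasurableSet (reg m y) := by
  have h1 : MeasurableSet {Y : Fin (k + 1) → ℂ | 1 / 2 ≤ nrm Y ∧ nrm Y ≤ 2} :=
    (measurableSet_le measurable_const measurable_nrm).inter
      (measurableSet_le measurable_nrm measurable_const)
  have h2 : MeasurableSet {Y : Fin (k + 1) → ℂ |
      ∀ i : Fin (k + 1), (i : ℕ) < m → ‖y i‖ / 2 ≤ ‖Y i‖ ∧ ‖Y i‖ ≤ 2 * ‖y i‖} := by
    rw [Set.setOf_forall]
    refine MeasurableSet.iInter fun i => ?_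
    rw [Set.setOf_forall]
    refine MeasurableSet.iInter fun _ => ?_
    exact (measurableSet_le measurable_const (measurable_pi_apply i).norm).inter
      (measurableSet_le (measurable_pi_apply i).norm measurable_const)
  exact h1.inter h2

theorem mem_reg (m : ℕ) (X : Fin (k + 1) → Fin (k + 1) → ℂ) (y : Fin (k + 1) → ℂ)
    (hy : nsq y = 1) (hX : ∀ i j, ‖X i j‖ ≤ th0 k) : (mX m X).mulVec y ∈ reg m y := by
  rw [mulVec_eq]
  set Y : Fin (k + 1) → ℂ := fun i => y i + ∑ j, X i j * cf m y i j with hY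
  have hd := diff_sq m X y hy hX
  have hsum : ∑ i : Fin (k + 1), ‖∑ j, X i j * cf m y i j‖ ^ 2 ≤ 1 / 64 := by
    rw [← th_sq k]
    refine (Finset.sum_le_sum fun i _ => hd i).trans ?_
    rw [Finset.sum_const, Finset.card_univ, Fintype.card_fin, nsmul_eq_mul]
    push_cast
    exact le_rfl
  have hup : nsq Y ≤ 4 := by
    have : nsq Y ≤ 2 * nsq y + 2 * ∑ i : Fin (k + 1), ‖∑ j, X i j * cf m y i j‖ ^ 2 := by
      unfold nsq
      rw [Finset.mul_sum, Finset.mul_sum, ← Finset.sum_add_distrib]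
      exact Finset.sum_le_sum fun i _ => sq_add_le _ _
    rw [hy] at this
    linarith
  have hlo : 1 / 4 ≤ nsq Y := by
    have : nsq y ≤ 2 * nsq Y + 2 * ∑ i : Fin (k + 1), ‖∑ j, X i j * cf m y i j‖ ^ 2 := by
      unfold nsq
      rw [Finset.mul_sum, Finset.mul_sum, ← Finset.sum_add_distrib]
      refine Finset.sum_le_sum fun i _ => ?_
      have h := sq_add_le (Y i) (-∑ j, X i j * cf m y i j)
      rw [norm_neg] at h
      have e : Y i + -∑ j, X i j * cf m y i j = y i := by
        rw [hY]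
        ring
      rwa [e] at h
    rw [hy] at this
    linarith
  refine ⟨⟨?_, ?_⟩, ?_⟩
  · unfold nrm
    refine Real.le_sqrt_of_sq_le ?_
    linarith
  · unfold nrm
    rw [Real.sqrt_le_left (by norm_num)]
    linarith
  · intro i hi
    have e : Y i = (1 + X i i) * y i := by
      rw [hY]
      simp only
      unfold cf
      simp only [hi, if_true]
      rw [Finset.sum_eq_single i]
      · rw [if_pos rfl]
        ring
      · intro j _ hj
        rw [if_neg hj, mul_zero]
      · intro h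
        exact absurd (Finset.mem_univ i) h
    rw [e, norm_mul]
    have h1 : ‖(1 : ℂ) + X i i‖ ≤ 1 + ‖X i i‖ := by
      have := norm_add_le (1 : ℂ) (X i i)
      rwa [norm_one] at this
    have h2 : 1 - ‖X i i‖ ≤ ‖(1 : ℂ) + X i i‖ := by
      have := norm_sub_le ((1 : ℂ) + X i i) (X i i)
      rw [add_sub_cancel_right, norm_one] at this
      linarith
    have h3 := (hX i i).trans (th_le k)
    have h4 := norm_nonneg (y i)
    constructor
    · nlinarith
    · nlinarith

/-- The general form. -/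
theorem gen (hBU : T_MBU) (k : ℕ) : ∃ K : ENNReal, K ≠ ⊤ ∧ ∀ (m : ℕ) (y : Fin (k + 1) → ℂ),
    nsq y = 1 → (∀ i : Fin (k + 1), (i : ℕ) < m → y i ≠ 0) →
    ∀ h : (Fin (k + 1) → ℂ) → ENNReal, Measurable h →
      ∫⁻ X : Fin (k + 1) → Fin (k + 1) → ℂ,
          ENNReal.ofReal (bth (th0 k) X) * h ((mX m X).mulVec y) ≤
        (∏ i : Fin (k + 1), (K * (if (i : ℕ) < m then ENNReal.ofReal ((‖y i‖ ^ 2)⁻¹)
          else ((k + 1 : ℕ) : ENNReal)))) * ∫⁻ Y in reg m y, h Y := by
  obtain ⟨C, hC, hbu, -⟩ := hBU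
  obtain ⟨hcd, hnn, hle, hsupp, hint, hone⟩ := hbu (th0 k) (th_pos k)
  set K : ENNReal := ENNReal.ofReal (C / th0 k ^ 2) with hK
  refine ⟨K, ENNReal.ofReal_ne_top, fun m y hy hym h hh => ?_⟩
  set β : ℂ → ENNReal := fun t => ENNReal.ofReal (bs (th0 k) t) with hβdef
  have hβ : Measurable β := (hcd.continuous.measurable).ennreal_ofReal
  have hβK : ∀ t, β t ≤ K := fun t => ENNReal.ofReal_le_ofReal (hle t)
  have hβ1 : ∫⁻ t, β t ≤ 1 := by
    rw [hβdef, ← ofReal_integral_eq_lintegral_ofReal hint (Filter.Eventually.of_forall hnn), hone,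
      ENNReal.ofReal_one]
  -- the choice of the column
  have hj : ∀ i : Fin (k + 1), ∃ j0 : Fin (k + 1), cf m y i j0 ≠ 0 ∧
      ENNReal.ofReal ((‖cf m y i j0‖ ^ 2)⁻¹) ≤
        (if (i : ℕ) < m then ENNReal.ofReal ((‖y i‖ ^ 2)⁻¹) else ((k + 1 : ℕ) : ENNReal)) := by
    intro i
    by_cases hi : (i : ℕ) < m
    · refine ⟨i, ?_, ?_⟩
      · unfold cf
        rw [if_pos hi, if_pos rfl]
        exact hym i hi
      · unfold cf
        rw [if_pos hi, if_pos rfl, if_pos hi]
    · have hex : ∃ j0 : Fin (k + 1), 1 / ((k : ℝ) + 1) ≤ ‖y j0‖ ^ 2 := by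
        by_contra hcon
        have hcon' : ∀ j : Fin (k + 1), ‖y j‖ ^ 2 < 1 / ((k : ℝ) + 1) := fun j =>
          not_le.1 fun hle => hcon ⟨j, hle⟩
        have hlt : nsq y < ∑ _j : Fin (k + 1), 1 / ((k : ℝ) + 1) := by
          unfold nsq
          exact Finset.sum_lt_sum_of_nonempty Finset.univ_nonempty fun j _ => hcon' j
        rw [Finset.sum_const, Finset.card_univ, Fintype.card_fin, nsmul_eq_mul, hy] at hlt
        push_cast at hlt
        have : ((k : ℝ) + 1) * (1 / ((k : ℝ) + 1)) = 1 := by field_simp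
        linarith
      obtain ⟨j0, hj0⟩ := hex
      have hk : (0 : ℝ) < 1 / ((k : ℝ) + 1) := by positivity
      refine ⟨j0, ?_, ?_⟩
      · unfold cf
        rw [if_neg hi]
        intro h0
        rw [h0, norm_zero] at hj0
        norm_num at hj0
        linarith
      · unfold cf
        rw [if_neg hi, if_neg hi]
        have e : ((k + 1 : ℕ) : ENNReal) = ENNReal.ofReal ((k : ℝ) + 1) := by
          rw [← ENNReal.ofReal_natCast]
          push_cast
          rfl
        rw [e]
        refine ENNReal.ofReal_le_ofReal ?_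
        have h5 := inv_anti₀ hk hj0
        rwa [one_div, inv_inv] at h5
  choose j0 hj0 hj0' using hj
  -- insertion of the region
  have hins : ∀ X : Fin (k + 1) → Fin (k + 1) → ℂ,
      ENNReal.ofReal (bth (th0 k) X) * h ((mX m X).mulVec y) =
      (∏ i, (∏ j, β (X i j))) *
        (reg m y).indicator h (fun i => y i + ∑ j, X i j * cf m y i j) := by
    intro X
    have e1 : ENNReal.ofReal (bth (th0 k) X) = ∏ i, (∏ j, β (X i j)) := by
      unfold bth
      rw [ENNReal.ofReal_prod_of_nonneg fun i _ => Finset.prod_nonneg fun j _ => hnn _]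
      refine Finset.prod_congr rfl fun i _ => ?_
      rw [ENNReal.ofReal_prod_of_nonneg fun j _ => hnn _]
    rw [← e1, ← mulVec_eq]
    by_cases hz : bth (th0 k) X = 0
    · rw [hz, ENNReal.ofReal_zero, zero_mul, zero_mul]
    · have hX : ∀ i j, ‖X i j‖ ≤ th0 k := by
        intro i j
        by_contra hcon
        apply hz
        unfold bth
        refine Finset.prod_eq_zero (Finset.mem_univ i) ?_
        exact Finset.prod_eq_zero (Finset.mem_univ j) (hsupp _ (not_le.1 hcon).le)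
      rw [Set.indicator_of_mem (mem_reg m X y hy hX)]
  simp_rw [hins]
  have hind : Measurable ((reg m y).indicator h) := hh.indicator (measurableSet_reg m y)
  have hlaw := prod_law (volume : Measure (Fin (k + 1) → ℂ)) (volume : Measure ℂ) (k + 1)
    (fun _ x => ∏ j, β (x j)) (fun i x => y i + ∑ j, x j * cf m y i j)
    (fun i => K * ENNReal.ofReal ((‖cf m y i (j0 i)‖ ^ 2)⁻¹))
    (fun _ => Finset.measurable_fun_prod _ fun j _ => hβ.comp (measurable_pi_apply j))
    (fun i => measurable_const.add (Finset.measurable_fun_sum _ fun j _ =>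
      (measurable_pi_apply j).mul measurable_const))
    (fun i g hg => row_law k β hβ K hβK hβ1 (y i) (cf m y i) (j0 i) (hj0 i) g hg)
    ((reg m y).indicator h) hind
  rw [← volume_pi, ← volume_pi] at hlaw
  refine hlaw.trans ?_
  rw [lintegral_indicator (measurableSet_reg m y)]
  refine mul_le_mul_left ?_ _
  exact Finset.prod_le_prod' fun i _ => mul_le_mul_right (hj0' i) _

end MSB

open MSB

theorem pf_MSB (hBU : T_MBU) : T_MSB := by
  intro m k ε hε
  obtain ⟨K, hK, hgen⟩ := gen hBU k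
  set L : ENNReal := K * (ENNReal.ofReal ((ε ^ 2)⁻¹) + ((k + 1 : ℕ) : ENNReal)) with hL
  have hLtop : L ≠ ⊤ :=
    ENNReal.mul_ne_top hK (ENNReal.add_ne_top.2 ⟨ENNReal.ofReal_ne_top, ENNReal.natCast_ne_top _⟩)
  have hKL : K ≤ L := by
    calc K = K * 1 := (mul_one K).symm
      _ ≤ L := by
        refine mul_le_mul_right ?_ _
        refine le_trans ?_ le_add_self
        exact_mod_cast Nat.succ_le_succ (Nat.zero_le k)
  have hfac : ∀ (y : Fin (k + 1) → ℂ) (i : Fin (k + 1)), ((i : ℕ) < m → ε ≤ ‖y i‖) →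
      K * (if (i : ℕ) < m then ENNReal.ofReal ((‖y i‖ ^ 2)⁻¹)
          else ((k + 1 : ℕ) : ENNReal)) ≤ L := by
    intro y i hi
    refine mul_le_mul_right ?_ _
    split_ifs with him
    · refine le_trans ?_ le_self_add
      refine ENNReal.ofReal_le_ofReal ?_
      refine inv_anti₀ (by positivity) ?_
      exact pow_le_pow_left₀ hε.le (hi him) 2
    · exact le_add_self
  refine ⟨L ^ (k + 1), ENNReal.pow_ne_top hLtop, fun y hy h hh => ⟨fun hyε => ?_, ?_⟩⟩
  · refine (hgen m y hy (fun i hi => norm_pos_iff.1 (lt_of_lt_of_le hε (hyε i hi))) h hh).trans ?_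
    refine mul_le_mul' ?_ ?_
    · calc _ ≤ ∏ _i : Fin (k + 1), L := Finset.prod_le_prod' fun i _ => hfac y i (hyε i)
        _ = L ^ (k + 1) := by rw [Finset.prod_const, Finset.card_univ, Fintype.card_fin]
    · refine lintegral_mono_set ?_
      intro Y hY
      exact hY.1
  · intro b hbm hb hyε
    refine (hgen m y hy (fun i hi => ?_) h hh).trans ?_
    · by_cases hib : i = b
      · rw [hib]
        exact hb
      · exact norm_pos_iff.1 (lt_of_lt_of_le hε (hyε i hi hib))
    · rw [← mul_assoc]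
      refine mul_le_mul' ?_ ?_
      · calc _ ≤ ∏ i : Fin (k + 1), (L *
              (if i = b then ENNReal.ofReal ((‖y b‖ ^ 2)⁻¹) else 1)) := by
              refine Finset.prod_le_prod' fun i _ => ?_
              by_cases hib : i = b
              · subst hib
                rw [if_pos hbm, if_pos rfl]
                exact mul_le_mul_left hKL _
              · rw [if_neg hib, mul_one]
                exact hfac y i fun hi => hyε i hi hib
          _ = L ^ (k + 1) * ENNReal.ofReal ((‖y b‖ ^ 2)⁻¹) := by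
              rw [Finset.prod_mul_distrib, Finset.prod_const, Finset.card_univ, Fintype.card_fin,
                Finset.prod_ite_eq' Finset.univ b, if_pos (Finset.mem_univ b)]
      · refine lintegral_mono_set ?_
        intro Y hY
        exact ⟨hY.1, hY.2 b hbm⟩

end Pool.Agent.H72.EM
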