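import Mathlib
import Pool.Prelude.Def_H_3587d628

/-!
# Exact matching in cubic graphs: the statement (helper72)
-/

set_option autoImplicit false

namespace Pool.Agent.H72.EM

/-- `G` has a perfect matching with exactly `k` edges in `R` -/
def HasExact {n : ℕ} (G : SimpleGraph (Fin n)) (R : Set (Sym2 (Fin n))) (k : ℕ) : Prop :=
  ∃ M : G.Subgraph, M.IsPerfectMatching ∧ (M.edgeSet ∩ R).ncard = k

open Classical in
/-- the entry `(i, j)` of the matrix of a red-blue coloured graph: `0` for non-adjacent vertices, `1`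
for a blue edge, `2` for a red edge -/
noncomputable def entry {n : ℕ} (G : SimpleGraph (Fin n)) (R : Set (Sym2 (Fin n)))
    (i j : Fin n) : ℕ :=
  if G.Adj i j then (if s(i, j) ∈ R then 2 else 1) else 0

/-- The code of the instance `(G, R, k)`: the numbers `k, n` and the rows of the matrix, every number
`x` written as `x` ones and a zero. -/
noncomputable def code {n : ℕ} (G : SimpleGraph (Fin n)) (R : Set (Sym2 (Fin n))) (k : ℕ) :
    List Bool :=
  (k :: n :: (List.finRange n).flatMap fun i => (List.finRange n).map fun j => entry G R i j).flatMap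
    (fun x => List.replicate x true ++ [false])

/-- There is a deterministic polynomial time algorithm which solves the exact matching problem on all
instances `(G, R, k)` with `G` in the class `C`. -/
def ExactMatchingInP (C : ∀ n : ℕ, SimpleGraph (Fin n) → Prop) : Prop :=
  ∃ A ∈ N68a2faeb.P, ∀ (n : ℕ) (G : SimpleGraph (Fin n)) (R : Set (Sym2 (Fin n))) (k : ℕ),
    R ⊆ G.edgeSet → C n G → (A (code G R k) = true ↔ HasExact G R k)

/-- all graphs -/
def AllGraphs (n : ℕ) (_ : SimpleGraph (Fin n)) : Prop := True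

/-- 3-regular graphs -/
def Cubic (n : ℕ) (G : SimpleGraph (Fin n)) : Prop := ∀ v, (G.neighborSet v).ncard = 3

/-- proper 3-edge-colourings -/
def IsProper {n : ℕ} (G : SimpleGraph (Fin n)) (f : G.edgeSet → Fin 3) : Prop :=
  ∀ x y : G.edgeSet, x ≠ y → (∃ v, v ∈ x.1 ∧ v ∈ y.1) → f x ≠ f y

/-- the graph formed by the edges whose colour is not `d` -/
def twoClasses {n : ℕ} (G : SimpleGraph (Fin n)) (f : G.edgeSet → Fin 3) (d : Fin 3) :
    SimpleGraph (Fin n) :=
  SimpleGraph.fromEdgeSet {x | ∃ h : x ∈ G.edgeSet, f ⟨x, h⟩ ≠ d}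

/-- (non-empty) uniquely 3-edge-colourable 3-regular graphs: exactly one proper 3-edge-colouring up to
permutations of the colours -/
def Unique (n : ℕ) (G : SimpleGraph (Fin n)) : Prop :=
  0 < n ∧ Cubic n G ∧ ∃ f : G.edgeSet → Fin 3, IsProper G f ∧
    ∀ g : G.edgeSet → Fin 3, IsProper G g → ∃ π : Equiv.Perm (Fin 3), g = π ∘ f

/-- 3-regular graphs with a proper 3-edge-colouring in which every two colour classes form a connected
graph (that is, a Hamiltonian cycle) and which have at most `6 * 2^t` proper 3-edge-colourings, where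
`t^e` is at most the number of vertices -/
def Nearly (e : ℕ) (n : ℕ) (G : SimpleGraph (Fin n)) : Prop :=
  Cubic n G ∧
  (∃ f : G.edgeSet → Fin 3, IsProper G f ∧ ∀ d, (twoClasses G f d).Connected) ∧
  ∃ t : ℕ, t ^ e ≤ n ∧ Nat.card {f : G.edgeSet → Fin 3 // IsProper G f} ≤ 6 * 2 ^ t

end Pool.Agent.H72.EM
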