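import Pool.Agent.H72.EM.Defs
import Pool.Agent.H72.EM.Stmt

/-!
# Exact matching in cubic graphs: targets (helper72)
-/

set_option autoImplicit false

open Finset

namespace Pool.Agent.H72.EM

open Pool.Agent.H68.OQP Pool.Agent.H1.NP

/-! ### Structure -/

/-- TI: the host is a simple cubic graph with a proper colouring -/
def T_TI : Prop := ∀ (κ : ℕ) (c : Ix κ → Ix κ → ℕ), Sy c → IsPG (ht c) ∧ IsCol (ht c) hcol

/-- PI: the darts of a pole -/
def T_PI : Prop := ∀ (m : ℕ) (k : Bool),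
  (∀ (q : PV m) (a : Fin 3) (q' : PV m) (a' : Fin 3), io k q a = .inl (q', a') →
    io k q' a' = .inl (q, a) ∧ q' ≠ q ∧ rd (q', a') = rd (q, a) ∧
    ∀ F G : Fin 3, pcol k F G (q', a') = pcol k F G (q, a)) ∧
  (∀ (q : PV m) (a l : Fin 3), io k q a = .inr l ↔ q = lgv l ∧ a = 0) ∧
  (∀ (q : PV m) (a b : Fin 3) (q' : PV m) (a' b' : Fin 3), io k q a = .inl (q', a') →
    io k q b = .inl (q', b') → a = b) ∧
  (∀ F G : Fin 3, F ≠ 0 → G ≠ 0 → F ≠ G → ∀ (q : PV m) (a b : Fin 3),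
    pcol k F G (q, a) = pcol k F G (q, b) → a = b) ∧
  (∀ F G : Fin 3, pcol k F G ((lgv 0 : PV m), 0) = 0 ∧ pcol k F G ((lgv 1 : PV m), 0) = F ∧
    pcol k F G ((lgv 2 : PV m), 0) = G)

/-- TF: the final graph is a simple cubic graph with a proper colouring and symmetric red darts -/
def T_TF : Prop := ∀ (κ m : ℕ) (c : Ix κ → Ix κ → ℕ), Sy c →
  IsPG (ft c : Dt (Vt κ m) → Dt (Vt κ m)) ∧ IsCol (ft c : Dt (Vt κ m) → Dt (Vt κ m)) fcol ∧
    ∀ x : Dt (Vt κ m), fr c (ft c x) = fr c x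

/-! ### Poles -/

/-- local matchings of a pole -/
def LM {m : ℕ} (k : Bool) (χ : PV m → Fin 3) : Prop :=
  ∀ (q : PV m) (a : Fin 3) (q' : PV m) (a' : Fin 3), io k q a = .inl (q', a') →
    (χ q = a ↔ χ q' = a')

/-- the number of red darts of a local matching -/
def rcnt {m : ℕ} (χ : PV m → Fin 3) : ℕ := (univ.filter fun q => rd (q, χ q) = true).card

/-- LA: a local matching with few red darts follows the blue path of the ladder -/
def T_LA : Prop := ∀ (m : ℕ) (k : Bool) (χ : PV m → Fin 3), LM k χ → rcnt χ < m →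
  χ .a = 1 ∧ ∀ j, χ (.x j) = 0 ∧ χ (.y j) = 1

/-- PO: the legs of a local matching with few red darts -/
def T_PO : Prop := ∀ (m : ℕ) (k : Bool) (χ : PV m → Fin 3), LM k χ → rcnt χ < m →
  rcnt χ = 0 ∧ (k = true → χ (lgv 0) = 0 ∧ χ (lgv 1) ≠ 0 ∧ χ (lgv 2) ≠ 0) ∧
    (k = false → χ (lgv 0) ≠ 0 ∧ (χ (lgv 1) = 0 ↔ χ (lgv 2) ≠ 0))

/-- PX: local matchings without red darts -/
def T_PX : Prop := ∀ (m : ℕ) (k : Bool) (l : Fin 3), (k = true → l = 0) → (k = false → l ≠ 0) →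
  ∃ χ : PV m → Fin 3, LM k χ ∧ rcnt χ = 0 ∧ ∀ l', (χ (lgv l') = 0 ↔ l' = l)

/-- PC: every two colour classes connect a pole -/
def T_PC : Prop := ∀ (m : ℕ) (k : Bool) (F G : Fin 3), F ≠ 0 → G ≠ 0 → F ≠ G → ∀ (d : Fin 3)
  (q q' : PV m), Relation.ReflTransGen
    (fun q q' => ∃ a a', io k q a = .inl (q', a') ∧ pcol k F G (q, a) ≠ d) q q'

/-- PU: a proper colouring of a pole is determined by the colours of the legs -/
def T_PU : Prop := ∀ (m : ℕ) (k : Bool) (f g : Dt (PV m) → Fin 3),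
  (∀ (q : PV m) (a : Fin 3) (q' : PV m) (a' : Fin 3), io k q a = .inl (q', a') →
    f (q', a') = f (q, a) ∧ g (q', a') = g (q, a)) →
  (∀ (q : PV m) (a b : Fin 3), f (q, a) = f (q, b) → a = b) →
  (∀ (q : PV m) (a b : Fin 3), g (q, a) = g (q, b) → a = b) →
  (∀ l, f (lgv l, 0) = g (lgv l, 0)) → f = g

/-! ### Matchings -/

/-- FA: from the final graph to the host -/
def T_FA : Prop := ∀ (κ m k : ℕ) (c : Ix κ → Ix κ → ℕ), Sy c → 2 * k < m →
  ∀ χ : Vt κ m → Fin 3, IsM (ft c) χ → cnt (fr c) χ = 2 * k → ∃ ω, HM c ω ∧ hcnt c ω = 2 * k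

/-- FB: from the host to the final graph -/
def T_FB : Prop := ∀ (κ m : ℕ) (c : Ix κ → Ix κ → ℕ), Sy c → ∀ ω, HM c ω →
  ∃ χ : Vt κ m → Fin 3, IsM (ft c) χ ∧ cnt (fr c) χ = hcnt c ω

/-- SM: the states along the Hamiltonian cycle.  In the gadget of `i` exactly one of the vertices
`((i, some j), none)` uses its chord, and this chord is a chord of the given graph. -/
def T_SM : Prop := ∀ (κ : ℕ) (c : Ix κ → Ix κ → ℕ), Sy c → ∀ ω, HM c ω → ∀ i : Ix κ,
  ∃ j : Ix κ, c i j ≠ 0 ∧ ∀ j', ω ((i, some j'), none) = 0 ↔ j' = j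

/-- HI: from the host to the given graph -/
def T_HI : Prop := ∀ (κ k : ℕ) (c : Ix κ → Ix κ → ℕ), Sy c → ∀ ω, HM c ω → hcnt c ω = 2 * k → GM c k

/-- IH: from the given graph to the host -/
def T_IH : Prop := ∀ (κ k : ℕ) (c : Ix κ → Ix κ → ℕ), Sy c → GM c k → ∃ ω, HM c ω ∧ hcnt c ω = 2 * k

/-! ### Connectivity -/

/-- steps between the two halves (`false` = a, `true` = b) of the blocks -/
inductive GS {κ : ℕ} (c : Ix κ → Ix κ → ℕ) : Bk κ × Bool → Bk κ × Bool → Prop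
  | link (i : Ix κ) : GS c ((i, none), false) ((i, none), true)
  | par (i j : Ix κ) (b : Bool) (h : c i j ≠ 0) : GS c ((i, some j), b) ((j, some i), b)
  | cross (i j : Ix κ) (h : c i j = 0) : GS c ((i, some j), false) ((j, some i), true)
  | low (i j : Ix κ) (h : j.val < i.val) : GS c ((i, some j), false) ((i, some j), true)
  | row (i j : Ix κ) (h : i.val ≤ j.val) (h' : j.val < 2 * κ + 1) :
      GS c ((i, some j), true) ((i, some (up j)), false)
  | nextrow (i : Ix κ) (h : i.val < 2 * κ + 1) :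
      GS c ((i, some lst), true) ((up i, some (up i)), false)
  | twin (i : Ix κ) : GS c ((i, none), false) ((tw i, none), false)
  | shift (i j : Ix κ) (h : 1 ≤ i.val) (h' : j.val = i.val + κ) (h'' : i.val ≤ κ) :
      GS c ((i, none), true) ((j, none), true)
  | start : GS c ((lst, none), true) ((zr, some zr), false)

/-- GC: the halves of the blocks are connected -/
def T_GC : Prop := ∀ (κ : ℕ) (c : Ix κ → Ix κ → ℕ), Sy c → ∀ u v, Relation.EqvGen (GS c) u v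

/-- H0: the Hamiltonian cycle -/
def T_H0 : Prop := ∀ (κ : ℕ) (c : Ix κ → Ix κ → ℕ), Sy c → Cn (ht c) hcol 0

/-- H1: chords and the cycle edges of colour `2` -/
def T_H1 : Prop := ∀ (κ : ℕ) (c : Ix κ → Ix κ → ℕ), Sy c → Cn (ht c) hcol 1

/-- H2: chords and the cycle edges of colour `1` -/
def T_H2 : Prop := ∀ (κ : ℕ) (c : Ix κ → Ix κ → ℕ), Sy c → Cn (ht c) hcol 2

/-- FC: the final graph -/
def T_FC : Prop := ∀ (κ m : ℕ) (c : Ix κ → Ix κ → ℕ), Sy c → ∀ d,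
  Cn (ft c : Dt (Vt κ m) → Dt (Vt κ m)) fcol d

/-! ### The number of colourings -/

/-- UC: a colouring of the final graph is determined by the colours of the host edges -/
def T_UC : Prop := ∀ (κ m : ℕ) (c : Ix κ → Ix κ → ℕ), Sy c →
  ∀ f g : Dt (Vt κ m) → Fin 3, IsCol (ft c) f → IsCol (ft c) g →
    (∀ x : Dt (Hs κ), f (lft x) = g (lft x)) → f = g

/-- NC: the number of colourings of the final graph -/
def T_NC : Prop := ∀ (κ m : ℕ) (c : Ix κ → Ix κ → ℕ), Sy c →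
  Nat.card {f : Dt (Vt κ m) → Fin 3 // IsCol (ft c) f} ≤ 2 ^ (32 * ((2 * κ + 2) * (2 * κ + 3)))

/-! ### Numbering and coordinates -/

/-- NU: the numbering of the vertices -/
def T_NU : Prop := ∀ κ m : ℕ, ∃ e : Vt κ m ≃ Fin (szN κ m), ∀ v, (e v).val = nV v

/-- a matrix on `Fin n` as a function of natural numbers -/
def nat {n : ℕ} (c : Fin n → Fin n → ℕ) (i j : ℕ) : ℕ :=
  if h : i < n ∧ j < n then c ⟨i, h.1⟩ ⟨j, h.2⟩ else 0

/-- D1: every dart gives an arc -/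
def T_D1 : Prop := ∀ (κ m : ℕ) (c : Ix κ → Ix κ → ℕ), Sy c → ∀ (v : Vt κ m) (a : Fin 3) (w : Vt κ m),
  (ft c (v, a)).1 = w →
  (fr c (v, a) = true →
    aR (m + 1) (nat c) (ci v) (cp v) (cs v) (cr v) (ci w) (cp w) (cs w) (cr w) ∨
    aR (m + 1) (nat c) (ci w) (cp w) (cs w) (cr w) (ci v) (cp v) (cs v) (cr v)) ∧
  (fr c (v, a) = false →
    aB (2 * κ + 2) (m + 1) (nat c) (ci v) (cp v) (cs v) (cr v) (ci w) (cp w) (cs w) (cr w) ∨
    aB (2 * κ + 2) (m + 1) (nat c) (ci w) (cp w) (cs w) (cr w) (ci v) (cp v) (cs v) (cr v))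

/-- D2: every arc inside a pole and every arc between consecutive host vertices comes from a dart -/
def T_D2 : Prop := ∀ (κ m : ℕ) (c : Ix κ → Ix κ → ℕ), Sy c → ∀ (v w : Vt κ m),
  (aR (m + 1) (nat c) (ci v) (cp v) (cs v) (cr v) (ci w) (cp w) (cs w) (cr w) →
    ∃ a, (ft c (v, a)).1 = w ∧ fr c (v, a) = true) ∧
  (aB (2 * κ + 2) (m + 1) (nat c) (ci v) (cp v) (cs v) (cr v) (ci w) (cp w) (cs w) (cr w) →
    ∃ a, (ft c (v, a)).1 = w ∧ fr c (v, a) = false)

/-- EC: the entries of the matrix of the final graph in coordinates -/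
def T_EC : Prop := ∀ (κ m : ℕ) (c : Ix κ → Ix κ → ℕ), Sy c → ∀ v w : Vt κ m,
  aE (2 * κ + 2) (m + 1) (nat c) (ci v) (cp v) (cs v) (cr v) (ci w) (cp w) (cs w) (cr w) (fe c v w)

/-- the list of the entries of a matrix -/
def mat {n : ℕ} (c : Fin n → Fin n → ℕ) : List ℕ :=
  (List.finRange n).flatMap fun i => (List.finRange n).map fun j => c i j

/-- concatenation over the coordinates of the vertices -/
def cl (κ m : ℕ) (g : ℕ → ℕ → ℕ → ℕ → List ℕ) : List ℕ :=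
  (List.range (2 * κ + 2)).flatMap fun i => (List.range (2 * κ + 3)).flatMap fun p =>
    (List.range 8).flatMap fun s => (List.range (szP m)).flatMap fun r =>
      if 1 ≤ s ∨ r ≤ 0 then g i p s r else []

/-- LS: the matrix in coordinates -/
def T_LS : Prop := ∀ (κ m : ℕ) (E : Vt κ m ≃ Fin (szN κ m)), (∀ v, (E v).val = nV v) →
  ∀ (f : Vt κ m → Vt κ m → ℕ) (F : ℕ → ℕ → ℕ → ℕ → ℕ → ℕ → ℕ → ℕ → ℕ),
    (∀ v w, f v w = F (ci v) (cp v) (cs v) (cr v) (ci w) (cp w) (cs w) (cr w)) →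
    mat (fun a b => f (E.symm a) (E.symm b)) =
      cl κ m fun i p s r => cl κ m fun i' p' s' r' => [F i p s r i' p' s' r']

open Pool.Agent.H68.NPH in
/-- CD: the arcs as conditions of the generator language; the environment is
`[r', s', p', i', r, s, p, i]` -/
def T_CD : Prop := ∀ e : ℕ, ∃ R B : Cd, ∀ (κ k : ℕ) (c : Ix κ → Ix κ → ℕ) (t : List ℕ)
  (i p s r i' p' s' r' : ℕ), i < 2 * κ + 2 → i' < 2 * κ + 2 →
  (R.tv (k :: (2 * κ + 2) :: (mat c ++ t)) [r', s', p', i', r, s, p, i] ↔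
    aR (mm e κ k + 1) (nat c) i p s r i' p' s' r' ∨
    aR (mm e κ k + 1) (nat c) i' p' s' r' i p s r) ∧
  (B.tv (k :: (2 * κ + 2) :: (mat c ++ t)) [r', s', p', i', r, s, p, i] ↔
    aB (2 * κ + 2) (mm e κ k + 1) (nat c) i p s r i' p' s' r' ∨
    aB (2 * κ + 2) (mm e κ k + 1) (nat c) i' p' s' r' i p s r)

/-- GE: the generator of the final graph -/
def T_GE : Prop := ∀ e : ℕ, ∃ g : Lg, ∀ (κ k : ℕ) (c : Ix κ → Ix κ → ℕ) (t : List ℕ), Sy c →
  ∀ E : Vt κ (mm e κ k) ≃ Fin (szN κ (mm e κ k)), (∀ v, (E v).val = nV v) →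
    g.out (k :: (2 * κ + 2) :: (mat c ++ t)) [] =
      k :: szN κ (mm e κ k) :: mat (fun a b => fe c (E.symm a) (E.symm b))

/-! ### Doubling -/

/-- the given graph, a blue copy of it and a blue edge -/
def dbl {n : ℕ} (c : Fin n → Fin n → ℕ) (i j : Ix n) : ℕ :=
  if h : i.val < n ∧ j.val < n then c ⟨i.val, h.1⟩ ⟨j.val, h.2⟩
  else if h : n ≤ i.val ∧ i.val < 2 * n ∧ n ≤ j.val ∧ j.val < 2 * n then
    min 1 (c ⟨i.val - n, by omega⟩ ⟨j.val - n, by omega⟩)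
  else if (i.val = 2 * n ∧ j.val = 2 * n + 1) ∨ (i.val = 2 * n + 1 ∧ j.val = 2 * n) then 1 else 0

/-- DB: the doubled graph -/
def T_DB : Prop := ∀ (n k : ℕ) (c : Fin n → Fin n → ℕ), (∀ i j, c i j = c j i) → (∀ i, c i i = 0) →
  (∀ i j, c i j ≤ 2) → Sy (dbl c) ∧ (GM (dbl c) k ↔ GM c k)

/-- DG: the generator of the doubled graph -/
def T_DG : Prop := ∃ g : Lg, ∀ (n k : ℕ) (c : Fin n → Fin n → ℕ) (t : List ℕ),
  g.out (k :: n :: (mat c ++ t)) [] = k :: (2 * n + 2) :: mat (dbl c)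

/-- RW: reading a bit string as a list of numbers -/
def T_RW : Prop := ∃ dec : List Bool → List ℕ, PolyOn (fun w : List Bool => w) unary dec ∧
  ∀ l, dec (unary l) = l ++ [0]

/-! ### Perfect matchings as subgraphs -/

/-- GI: perfect matchings of a graph on `Fin n` -/
def T_GI : Prop := ∀ (n k : ℕ) (G : SimpleGraph (Fin n)) (R : Set (Sym2 (Fin n))),
  R ⊆ G.edgeSet → (HasExact G R k ↔ GM (entry G R) k)

/-- the graph on `Fin N` of a dart involution on `V ≃ Fin N` -/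
def gph {V : Type} {N : ℕ} (τ : Dt V → Dt V) (e : V ≃ Fin N) (h : IsPG τ) : SimpleGraph (Fin N) where
  Adj a b := ∃ p, (τ (e.symm a, p)).1 = e.symm b
  symm := ⟨by
    rintro a b ⟨p, hp⟩
    refine ⟨(τ (e.symm a, p)).2, ?_⟩
    rw [← hp]
    have := h.inv (e.symm a, p)
    rw [show ((τ (e.symm a, p)).1, (τ (e.symm a, p)).2) = τ (e.symm a, p) from rfl, this]⟩
  loopless := ⟨by
    rintro a ⟨p, hp⟩
    exact h.ne _ hp⟩

/-- its red edges -/
def rds {V : Type} {N : ℕ} (τ : Dt V → Dt V) (e : V ≃ Fin N) (red : Dt V → Bool) :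
    Set (Sym2 (Fin N)) :=
  {x | ∃ a b p, x = s(a, b) ∧ (τ (e.symm a, p)).1 = e.symm b ∧ red (e.symm a, p) = true}

/-- GT: perfect matchings of the graph of a dart involution -/
def T_GT : Prop := ∀ (V : Type) [Fintype V] (N k : ℕ) (τ : Dt V → Dt V) (e : V ≃ Fin N)
  (h : IsPG τ) (red : Dt V → Bool), (∀ x, red (τ x) = red x) →
    rds τ e red ⊆ (gph τ e h).edgeSet ∧
    (HasExact (gph τ e h) (rds τ e red) k ↔ ∃ χ, IsM τ χ ∧ cnt red χ = 2 * k)

/-- GN: the class of the graph of a dart involution -/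
def T_GN : Prop := ∀ (V : Type) [Fintype V] [Nonempty V] (N e' t : ℕ) (τ : Dt V → Dt V)
  (e : V ≃ Fin N) (h : IsPG τ) (col : Dt V → Fin 3), IsCol τ col → (∀ d, Cn τ col d) →
    t ^ e' ≤ N → Nat.card {f : Dt V → Fin 3 // IsCol τ f} ≤ 2 ^ t → Nearly e' N (gph τ e h)

/-- UN: uniquely colourable graphs belong to all classes -/
def T_UN : Prop := ∀ (e n : ℕ) (G : SimpleGraph (Fin n)), 1 ≤ e → Unique n G → Nearly e n G

/-! ### The theorem -/

/-- ALL -/
def T_ALL : Prop :=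
  (ExactMatchingInP Cubic ↔ ExactMatchingInP AllGraphs) ∧
  ∀ e : ℕ, 1 ≤ e → (ExactMatchingInP (Nearly e) ↔ ExactMatchingInP AllGraphs) ∧
    ∀ (n : ℕ) (G : SimpleGraph (Fin n)), Unique n G → Nearly e n G

end Pool.Agent.H72.EM
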